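import Pool.Agent.W841.PK.Stm

/-! Basic API: expectations, probabilities, `Whp`, simple facts on the process. -/

set_option autoImplicit false

namespace W841.PK

open Finset
open scoped Classical symmDiff

noncomputable section

variable {n : ℕ}

theorem card_pos' : (0 : ℝ) < (Fintype.card (SimpleGraph (Fin n)) : ℝ) := by
  exact_mod_cast Fintype.card_pos

theorem Ex_add (f g : SimpleGraph (Fin n) → ℝ) : Ex (fun G => f G + g G) = Ex f + Ex g := by
  unfold Ex; rw [sum_add_distrib, add_div]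

theorem Ex_sub (f g : SimpleGraph (Fin n) → ℝ) : Ex (fun G => f G - g G) = Ex f - Ex g := by
  unfold Ex; rw [sum_sub_distrib, sub_div]

theorem Ex_neg (f : SimpleGraph (Fin n) → ℝ) : Ex (fun G => - f G) = - Ex f := by
  unfold Ex; rw [sum_neg_distrib, neg_div]

theorem Ex_mul_left (c : ℝ) (f : SimpleGraph (Fin n) → ℝ) :
    Ex (fun G => c * f G) = c * Ex f := by
  unfold Ex; rw [← mul_sum, mul_div_assoc]

theorem Ex_mul_right (c : ℝ) (f : SimpleGraph (Fin n) → ℝ) :
    Ex (fun G => f G * c) = Ex f * c := by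
  unfold Ex; rw [← sum_mul, div_mul_eq_mul_div]

theorem Ex_const (c : ℝ) : Ex (fun _ : SimpleGraph (Fin n) => c) = c := by
  unfold Ex
  rw [sum_const, card_univ, nsmul_eq_mul]
  field_simp [card_pos'.ne']

theorem Ex_zero : Ex (fun _ : SimpleGraph (Fin n) => (0 : ℝ)) = 0 := Ex_const 0

theorem Ex_sum {ι : Type*} (T : Finset ι) (f : ι → SimpleGraph (Fin n) → ℝ) :
    Ex (fun G => ∑ i ∈ T, f i G) = ∑ i ∈ T, Ex (f i) := by
  unfold Ex; rw [sum_comm, sum_div]

theorem Ex_congr {f g : SimpleGraph (Fin n) → ℝ} (h : ∀ G, f G = g G) : Ex f = Ex g := by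
  rw [show f = g from funext h]

theorem Ex_mono {f g : SimpleGraph (Fin n) → ℝ} (h : ∀ G, f G ≤ g G) : Ex f ≤ Ex g := by
  unfold Ex
  exact div_le_div_of_nonneg_right (sum_le_sum fun G _ => h G) card_pos'.le

theorem Ex_nonneg {f : SimpleGraph (Fin n) → ℝ} (h : ∀ G, 0 ≤ f G) : 0 ≤ Ex f := by
  unfold Ex
  exact div_nonneg (sum_nonneg fun G _ => h G) card_pos'.le

theorem abs_Ex_le (f : SimpleGraph (Fin n) → ℝ) : |Ex f| ≤ Ex (fun G => |f G|) := by
  unfold Ex
  rw [abs_div, abs_of_pos card_pos']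
  exact div_le_div_of_nonneg_right (abs_sum_le_sum_abs _ _) card_pos'.le

theorem Pr_nonneg (E : SimpleGraph (Fin n) → Prop) : 0 ≤ Pr E :=
  Ex_nonneg fun G => by split_ifs <;> norm_num

theorem Pr_le_one (E : SimpleGraph (Fin n) → Prop) : Pr E ≤ 1 := by
  rw [← Ex_const (n := n) 1]
  exact Ex_mono fun G => by split_ifs <;> norm_num

theorem Pr_mono {E F : SimpleGraph (Fin n) → Prop} (h : ∀ G, E G → F G) : Pr E ≤ Pr F := by
  refine Ex_mono fun G => ?_
  by_cases hE : E G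
  · simp [hE, h G hE]
  · simp only [hE, if_false]; split_ifs <;> norm_num

theorem Pr_congr {E F : SimpleGraph (Fin n) → Prop} (h : ∀ G, E G ↔ F G) : Pr E = Pr F :=
  le_antisymm (Pr_mono fun G => (h G).1) (Pr_mono fun G => (h G).2)

theorem Pr_or_le (E F : SimpleGraph (Fin n) → Prop) :
    Pr (fun G => E G ∨ F G) ≤ Pr E + Pr F := by
  unfold Pr
  rw [← Ex_add]
  refine Ex_mono fun G => ?_
  by_cases hE : E G <;> by_cases hF : F G <;> simp [hE, hF]

theorem Pr_exists_le {ι : Type*} (T : Finset ι) (E : ι → SimpleGraph (Fin n) → Prop) :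
    Pr (fun G => ∃ i ∈ T, E i G) ≤ ∑ i ∈ T, Pr (E i) := by
  unfold Pr
  rw [← Ex_sum]
  refine Ex_mono fun G => ?_
  by_cases h : ∃ i ∈ T, E i G
  · obtain ⟨i, hi, hE⟩ := h
    rw [if_pos ⟨i, hi, hE⟩]
    calc (1 : ℝ) = (if E i G then 1 else 0) := by simp [hE]
      _ ≤ _ := single_le_sum (f := fun i => if E i G then (1 : ℝ) else 0)
          (fun j _ => by split_ifs <;> norm_num) hi
  · rw [if_neg h]
    exact sum_nonneg fun j _ => by split_ifs <;> norm_num

theorem Pr_not (E : SimpleGraph (Fin n) → Prop) : Pr (fun G => ¬ E G) = 1 - Pr E := by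
  unfold Pr
  rw [← Ex_const (n := n) 1, ← Ex_sub]
  refine Ex_congr fun G => ?_
  by_cases hE : E G <;> simp [hE, Ex_const]

/-- Markov's inequality -/
theorem Pr_markov (f : SimpleGraph (Fin n) → ℝ) (hf : ∀ G, 0 ≤ f G) (lam : ℝ) (hl : 0 < lam) :
    Pr (fun G => lam ≤ f G) ≤ Ex f / lam := by
  rw [le_div_iff₀ hl]
  unfold Pr
  rw [← Ex_mul_right]
  refine Ex_mono fun G => ?_
  by_cases h : lam ≤ f G
  · simp [h]
  · simp [h, hf G]

/-- Chebyshev's inequality -/
theorem Pr_cheb (f : SimpleGraph (Fin n) → ℝ) (lam : ℝ) (hl : 0 < lam) :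
    Pr (fun G => lam ≤ |f G|) ≤ Ex (fun G => f G ^ 2) / lam ^ 2 := by
  refine le_trans (Pr_mono fun G h => ?_) (Pr_markov (fun G => f G ^ 2) (fun G => sq_nonneg _)
    (lam ^ 2) (by positivity))
  have := pow_le_pow_left₀ hl.le h 2
  rwa [sq_abs] at this

theorem Whp.mono {P Q : ∀ n : ℕ, Finset (Fin n) → Rule n → SimpleGraph (Fin n) → Prop}
    (hP : Whp P) (n1 : ℕ)
    (h : ∀ n ≥ n1, ∀ (S : Finset (Fin n)) (ρ : Rule n) (G : SimpleGraph (Fin n)),
      S.card = Nat.sqrt n → IsRule ρ → P n S ρ G → Q n S ρ G) : Whp Q := by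
  intro ε hε
  obtain ⟨n0, h0⟩ := hP ε hε
  refine ⟨max n0 n1, fun n hn S ρ hS hρ => ?_⟩
  refine le_trans (Pr_mono fun G hG => ?_) (h0 n (le_trans (le_max_left _ _) hn) S ρ hS hρ)
  exact fun hPG => hG (h n (le_trans (le_max_right _ _) hn) S ρ G hS hρ hPG)

theorem Whp.and {P Q : ∀ n : ℕ, Finset (Fin n) → Rule n → SimpleGraph (Fin n) → Prop}
    (hP : Whp P) (hQ : Whp Q) : Whp (fun n S ρ G => P n S ρ G ∧ Q n S ρ G) := by
  intro ε hε
  obtain ⟨n0, h0⟩ := hP (ε / 2) (by linarith)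
  obtain ⟨n1, h1⟩ := hQ (ε / 2) (by linarith)
  refine ⟨max n0 n1, fun n hn S ρ hS hρ => ?_⟩
  have a := h0 n (le_trans (le_max_left _ _) hn) S ρ hS hρ
  have b := h1 n (le_trans (le_max_right _ _) hn) S ρ hS hρ
  calc Pr (fun G => ¬ (P n S ρ G ∧ Q n S ρ G)) ≤
      Pr (fun G => ¬ P n S ρ G ∨ ¬ Q n S ρ G) := Pr_mono fun G h => not_and_or.1 h
    _ ≤ _ := Pr_or_le _ _
    _ ≤ ε := by linarith

theorem Whp.all {P : ℕ → ∀ n : ℕ, Finset (Fin n) → Rule n → SimpleGraph (Fin n) → Prop} (m : ℕ)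
    (hP : ∀ i < m, Whp (P i)) : Whp (fun n S ρ G => ∀ i < m, P i n S ρ G) := by
  induction m with
  | zero =>
    intro ε hε
    refine ⟨0, fun n _ S ρ _ _ => ?_⟩
    have : Pr (fun G : SimpleGraph (Fin n) => ¬ ∀ i < 0, P i n S ρ G) ≤
        Pr (fun _ : SimpleGraph (Fin n) => False) := Pr_mono fun G h => by simp at h
    refine le_trans this ?_
    unfold Pr
    simp only [if_false]
    rw [Ex_zero]
    exact hε.le
  | succ m ih =>
    refine ((ih fun i hi => hP i (by omega)).and (hP m (by omega))).mono 0 ?_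
    intro n _ S ρ G _ _ h i hi
    rcases Nat.lt_succ_iff_lt_or_eq.1 hi with h' | h'
    · exact h.1 i h'
    · subst h'; exact h.2

theorem ee_self (G : SimpleGraph (Fin n)) (a : Fin n) : ee G a a = 0 := by simp [ee]

theorem ee_comm (G : SimpleGraph (Fin n)) (a b : Fin n) : ee G a b = ee G b a := by
  unfold ee
  simp only [eq_comm, G.adj_comm a b]

theorem abs_ee_le (G : SimpleGraph (Fin n)) (a b : Fin n) : |ee G a b| ≤ 1 := by
  unfold ee; split_ifs <;> simp

theorem ee_sq (G : SimpleGraph (Fin n)) {a b : Fin n} (h : a ≠ b) : ee G a b ^ 2 = 1 := by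
  unfold ee; rw [if_neg h]; split_ifs <;> norm_num

variable (S : Finset (Fin n)) (ρ : Rule n) (t : ℕ) (G : SimpleGraph (Fin n))

theorem RR_zero : RR S ρ 0 G = univ := rfl

theorem RR_succ : RR S ρ (t + 1) G = (RR S ρ t G).erase (ww S ρ t G) := rfl

theorem RR_anti {i j : ℕ} (h : i ≤ j) : RR S ρ j G ⊆ RR S ρ i G := by
  induction h with
  | refl => exact Subset.refl _
  | step _ ih => exact (erase_subset _ _).trans ih

theorem SS_union_NN : SS S ρ t G ∪ NN S ρ t G = RR S ρ t G := by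
  ext a; simp only [SS, NN, mem_union, mem_inter, mem_sdiff]; tauto

theorem disjoint_SS_NN : Disjoint (SS S ρ t G) (NN S ρ t G) := by
  rw [disjoint_left]; intro a h h'
  simp only [SS, NN, mem_inter, mem_sdiff] at h h'; exact h'.2 h.2

theorem NN_sub : NN S ρ t G ⊆ RR S ρ t G := sdiff_subset

theorem SS_sub : SS S ρ t G ⊆ RR S ρ t G := inter_subset_left

theorem rr_add_ss : rr S ρ t G + ss S ρ t G = (RR S ρ t G).card := by
  unfold rr ss
  rw [add_comm, ← card_union_of_disjoint (disjoint_SS_NN S ρ t G), SS_union_NN]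

theorem SameHist.refl : SameHist S ρ t G G := fun _ _ => ⟨rfl, rfl⟩

variable {S ρ t G}

theorem SameHist.symm {G' : SimpleGraph (Fin n)} (h : SameHist S ρ t G G') :
    SameHist S ρ t G' G := fun i hi => ⟨(h i hi).1.symm, (h i hi).2.symm⟩

theorem SameHist.trans {G' G'' : SimpleGraph (Fin n)} (h : SameHist S ρ t G G')
    (h' : SameHist S ρ t G' G'') : SameHist S ρ t G G'' :=
  fun i hi => ⟨(h i hi).1.trans (h' i hi).1, (h i hi).2.trans (h' i hi).2⟩

theorem SameHist.le {G' : SimpleGraph (Fin n)} {i : ℕ} (hi : i ≤ t) (h : SameHist S ρ t G G') :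
    SameHist S ρ i G G' := fun j hj => h j (hj.trans hi)

theorem Meas.le {α : Type} {f : SimpleGraph (Fin n) → α} {i : ℕ} (hi : i ≤ t)
    (h : Meas S ρ i f) : Meas S ρ t f := fun G G' hG => h G G' (hG.le hi)

end

end W841.PK
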