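import Pool.Agent.W841.PK.ChkS

set_option autoImplicit false

namespace W841.PK.Chk

open Finset W841.PK

theorem dg_zero (N : ℕ) : dg N 0 = N % 2 ^ 88 := by simp [dg]

theorem dg_succ (N i : ℕ) : dg N (i + 1) = dg (N / 2 ^ 88) i := by
  unfold dg
  rw [Nat.div_div_eq_div_mul, ← pow_add, show 88 * (i + 1) = 88 + 88 * i by ring]

theorem dg_lt (N i : ℕ) : dg N i < 2 ^ 88 := Nat.mod_lt _ (by positivity)

theorem dg_add (A B i : ℕ) (h : ∀ i, dg A i + dg B i < 2 ^ 88) :
    dg (A + B) i = dg A i + dg B i := by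
  induction i generalizing A B with
  | zero =>
    have := h 0
    simp only [dg_zero] at this ⊢
    rw [Nat.add_mod, Nat.mod_eq_of_lt this]
  | succ i ih =>
    have h0 := h 0
    simp only [dg_zero] at h0
    have e : (A + B) / 2 ^ 88 = A / 2 ^ 88 + B / 2 ^ 88 := by
      rw [Nat.add_div (by positivity), if_neg (by omega)]; simp
    rw [dg_succ, dg_succ, dg_succ, e]
    refine ih _ _ fun j => ?_
    have := h (j + 1)
    simpa only [dg_succ] using this

theorem dg_shl (N k i : ℕ) : dg (2 ^ (88 * k) * N) i = if i < k then 0 else dg N (i - k) := by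
  split_ifs with h
  · unfold dg
    have : 2 ^ (88 * k) * N = 2 ^ (88 * i) * (2 ^ 88 * (2 ^ (88 * (k - i - 1)) * N)) := by
      rw [← mul_assoc, ← mul_assoc, ← pow_add, ← pow_add]
      congr 2
      have : k = i + 1 + (k - i - 1) := by omega
      omega
    rw [this, Nat.mul_div_cancel_left _ (by positivity), Nat.mul_mod_right]
  · unfold dg
    have : 2 ^ (88 * i) = 2 ^ (88 * k) * 2 ^ (88 * (i - k)) := by
      rw [← pow_add]; congr 1; omega
    rw [this, Nat.mul_div_mul_left _ _ (by positivity)]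

theorem dg_shr (N k i : ℕ) : dg (N / 2 ^ (88 * k)) i = dg N (i + k) := by
  unfold dg
  rw [Nat.div_div_eq_div_mul, ← pow_add, show 88 * k + 88 * i = 88 * (i + k) by ring]

theorem dg_of_lt (N M i : ℕ) (h : N < 2 ^ (88 * M)) (hi : M ≤ i) : dg N i = 0 := by
  unfold dg
  rw [Nat.div_eq_of_lt (lt_of_lt_of_le h (Nat.pow_le_pow_right (by norm_num) (by omega)))]
  rfl

theorem dg_mod (N M i : ℕ) : dg (N % 2 ^ (88 * M)) i = if i < M then dg N i else 0 := by
  split_ifs with h
  · unfold dg
    have e : N = N % 2 ^ (88 * M) + 2 ^ (88 * i) * (2 ^ 88 * (2 ^ (88 * (M - i - 1)) *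
        (N / 2 ^ (88 * M)))) := by
      conv_lhs => rw [← Nat.mod_add_div N (2 ^ (88 * M))]
      congr 1
      rw [← mul_assoc, ← mul_assoc, ← pow_add, ← pow_add]
      congr 2
      omega
    conv_rhs => rw [e]
    rw [Nat.add_mul_div_left _ _ (by positivity), Nat.add_mul_mod_self_left]
  · exact dg_of_lt _ M _ (Nat.mod_lt _ (by positivity)) (by omega)

theorem rep_eq (M : ℕ) : rep M = ∑ i ∈ range M, (2 ^ 88) ^ i := by
  unfold rep
  rw [Nat.geomSum_eq (by norm_num) M, pow_mul]

theorem rep_zero : rep 0 = 0 := by rw [rep_eq]; simp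

theorem rep_succ (M : ℕ) : rep (M + 1) = 1 + 2 ^ 88 * rep M := by
  rw [rep_eq, rep_eq, sum_range_succ', mul_sum, add_comm]
  congr 1
  exact sum_congr rfl fun i _ => by rw [pow_succ, mul_comm]

theorem dg_rep (c M i : ℕ) (hc : c < 2 ^ 88) : dg (c * rep M) i = if i < M then c else 0 := by
  induction M generalizing i with
  | zero => simp [rep_zero, dg]
  | succ M ih =>
    have e : c * rep (M + 1) = c + 2 ^ 88 * (c * rep M) := by rw [rep_succ]; ring
    cases i with
    | zero =>
      rw [e, dg_zero, Nat.add_mul_mod_self_left, Nat.mod_eq_of_lt hc]; simp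
    | succ i =>
      rw [e, dg_succ, Nat.add_mul_div_left _ _ (by positivity), Nat.div_eq_of_lt hc, zero_add, ih]
      simp

/-- a number is determined by its digits -/
theorem eq_of_dg (N N' : ℕ) (h : ∀ i, dg N i = dg N' i) : N = N' := by
  induction N using Nat.strong_induction_on generalizing N' with
  | _ N ih =>
    rcases Nat.eq_zero_or_pos N with h0 | h0
    · subst h0
      by_contra hne
      have : ∀ M : ℕ, 0 < M → ∃ i, dg M i ≠ 0 := by
        intro M
        induction M using Nat.strong_induction_on with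
        | _ M ihM =>
          intro hM
          by_cases hz : M % 2 ^ 88 = 0
          · have hpos : 0 < M / 2 ^ 88 := Nat.div_pos (Nat.le_of_dvd hM (Nat.dvd_of_mod_eq_zero hz))
              (by positivity)
            obtain ⟨i, hi⟩ := ihM (M / 2 ^ 88) (Nat.div_lt_self hM (by norm_num)) hpos
            exact ⟨i + 1, by rwa [dg_succ]⟩
          · exact ⟨0, by rwa [dg_zero]⟩
      obtain ⟨i, hi⟩ := this N' (Nat.pos_of_ne_zero fun h => hne h.symm)
      apply hi
      rw [← h i]; simp [dg]
    · have h1 := ih (N / 2 ^ 88) (Nat.div_lt_self h0 (by norm_num)) (N' / 2 ^ 88)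
        (fun i => by have := h (i + 1); simpa only [dg_succ] using this)
      have h2 := h 0
      simp only [dg_zero] at h2
      rw [← Nat.mod_add_div N (2 ^ 88), ← Nat.mod_add_div N' (2 ^ 88), h1, h2]

theorem dg_sub (N h c i : ℕ) (hN : N < 2 ^ (88 * h)) (hc : ∀ i < h, c ≤ dg N i) :
    dg (N - c * rep h) i = if i < h then dg N i - c else 0 := by
  rcases Nat.eq_zero_or_pos h with h0 | h0
  · subst h0
    simp only [Nat.mul_zero, pow_zero, Nat.lt_one_iff] at hN
    subst hN; simp [dg]
  have hc88 : c < 2 ^ 88 := lt_of_le_of_lt (hc 0 h0) (dg_lt _ _)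
  -- the number with the digits `dg N i - c`
  have key : ∀ (h N : ℕ), N < 2 ^ (88 * h) → (∀ i < h, c ≤ dg N i) →
      ∃ Z, Z + c * rep h = N ∧ ∀ i, dg Z i = if i < h then dg N i - c else 0 := by
    intro h
    induction h with
    | zero =>
      intro N hN _
      simp only [Nat.mul_zero, pow_zero, Nat.lt_one_iff] at hN
      subst hN
      exact ⟨0, by simp [rep_zero], fun i => by simp [dg]⟩
    | succ h ih =>
      intro N hN hc
      have hN' : N / 2 ^ 88 < 2 ^ (88 * h) := by
        rw [Nat.div_lt_iff_lt_mul (by positivity), ← pow_add]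
        calc N < 2 ^ (88 * (h + 1)) := hN
          _ = _ := by congr 1
      obtain ⟨Z, hZ, hd⟩ := ih (N / 2 ^ 88) hN' fun i hi => by
        have := hc (i + 1) (by omega); rwa [dg_succ] at this
      have hc0 := hc 0 (by omega)
      rw [dg_zero] at hc0
      refine ⟨(N % 2 ^ 88 - c) + 2 ^ 88 * Z, ?_, ?_⟩
      · rw [rep_succ]
        calc N % 2 ^ 88 - c + 2 ^ 88 * Z + c * (1 + 2 ^ 88 * rep h)
            = (N % 2 ^ 88 - c + c) + 2 ^ 88 * (Z + c * rep h) := by ring
          _ = N := by rw [hZ, Nat.sub_add_cancel hc0, Nat.mod_add_div]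
      · have hlt : N % 2 ^ 88 - c < 2 ^ 88 :=
          lt_of_le_of_lt (Nat.sub_le _ _) (Nat.mod_lt _ (by positivity))
        intro i
        cases i with
        | zero =>
          rw [dg_zero, Nat.add_mul_mod_self_left, Nat.mod_eq_of_lt hlt, if_pos (by omega), dg_zero]
        | succ i =>
          rw [dg_succ, Nat.add_mul_div_left _ _ (by positivity), Nat.div_eq_of_lt hlt, zero_add,
            hd i, dg_succ]
          simp only [Nat.add_lt_add_iff_right]
  obtain ⟨Z, hZ, hd⟩ := key h N hN hc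
  rw [show N - c * rep h = Z by omega]
  exact hd i

theorem dig : S_Dig := by
  refine ⟨dg_add, dg_shl, dg_shr, dg_mod, dg_rep, fun N h c i hN hc => dg_sub N h c i hN hc,
    fun N h c hN => lt_of_le_of_lt (Nat.sub_le _ _) hN, dg_of_lt, dg_lt⟩

end W841.PK.Chk
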