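import Pool.Agent.W841.PK.Dig

set_option autoImplicit false

namespace W841.PK.Chk

open Finset W841.PK

theorem dg_smul (c X B i : ℕ) (hX : ∀ i, dg X i ≤ B) (hB : c * B < 2 ^ 88) :
    dg (c * X) i = c * dg X i := by
  induction c generalizing i with
  | zero => simp [dg]
  | succ c ih =>
    have hc : c * B < 2 ^ 88 := lt_of_le_of_lt (Nat.mul_le_mul_right _ (by omega)) hB
    have e : (c + 1) * X = c * X + X := by ring
    rw [e, dg_add, ih i hc]
    · ring
    · intro j
      rw [ih j hc]
      calc c * dg X j + dg X j = (c + 1) * dg X j := by ring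
        _ ≤ (c + 1) * B := Nat.mul_le_mul_left _ (hX j)
        _ < 2 ^ 88 := hB

theorem digmul : S_DigMul := by
  intro X Y n B
  induction n generalizing Y with
  | zero =>
    intro l _ hY _
    simp only [Nat.mul_zero, pow_zero, Nat.lt_one_iff] at hY
    subst hY; simp [dg]
  | succ n ih =>
    intro l hX hY hB
    have hY' : Y / 2 ^ 88 < 2 ^ (88 * n) := by
      rw [Nat.div_lt_iff_lt_mul (by positivity), ← pow_add]
      calc Y < 2 ^ (88 * (n + 1)) := hY
        _ = _ := by congr 1
    have hsum : ∑ m ∈ range (n + 1), dg Y m = dg Y 0 + ∑ m ∈ range n, dg (Y / 2 ^ 88) m := by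
      rw [sum_range_succ', add_comm]
      congr 1
      exact sum_congr rfl fun m _ => by rw [dg_succ]
    rw [hsum, Nat.mul_add] at hB
    have hB1 : B * dg Y 0 < 2 ^ 88 := by omega
    have hB2 : B * ∑ m ∈ range n, dg (Y / 2 ^ 88) m < 2 ^ 88 := by omega
    have hih : ∀ l, dg (X * (Y / 2 ^ 88)) l =
        ∑ m ∈ range n, if m ≤ l then dg (Y / 2 ^ 88) m * dg X (l - m) else 0 :=
      fun l => ih (Y / 2 ^ 88) l hX hY' hB2
    have hbd : ∀ l, dg (X * (Y / 2 ^ 88)) l ≤ B * ∑ m ∈ range n, dg (Y / 2 ^ 88) m := by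
      intro l
      rw [hih l, mul_sum]
      refine sum_le_sum fun m _ => ?_
      split_ifs
      · rw [mul_comm B]; exact Nat.mul_le_mul_left _ (hX _)
      · exact Nat.zero_le _
    have e : X * Y = dg Y 0 * X + 2 ^ (88 * 1) * (X * (Y / 2 ^ 88)) := by
      rw [dg_zero]
      conv_lhs => rw [← Nat.mod_add_div Y (2 ^ 88)]
      ring
    have hs : ∀ i, dg (dg Y 0 * X) i = dg Y 0 * dg X i := fun i =>
      dg_smul _ X B i hX (by rwa [mul_comm])
    rw [e, dg_add, hs, dg_shl]
    · cases l with
      | zero =>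
        rw [if_pos (by norm_num), sum_range_succ']
        simp
      | succ l =>
        rw [if_neg (by omega), hih, sum_range_succ']
        simp only [Nat.add_le_add_iff_right, Nat.zero_le, if_true, Nat.sub_zero,
          Nat.add_sub_cancel, Nat.add_sub_add_right]
        rw [add_comm]
        congr 1
        exact sum_congr rfl fun m _ => by rw [dg_succ]
    · intro i
      rw [hs, dg_shl]
      have h1 : dg Y 0 * dg X i ≤ B * dg Y 0 := by
        rw [mul_comm]; exact Nat.mul_le_mul_right _ (hX i)
      split_ifs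
      · omega
      · have := hbd (i - 1)
        omega

end W841.PK.Chk
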