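import Pool.Agent.W841.PK.Dig

set_option autoImplicit false

namespace W841.PK.Chk

open Finset W841.PK

theorem testBit_dg (N i j : ℕ) (hj : j < 88) : (dg N i).testBit j = N.testBit (88 * i + j) := by
  unfold dg
  rw [Nat.testBit_mod_two_pow, Nat.testBit_div_two_pow]
  simp [hj, add_comm]

theorem testBit_dg' (N i j : ℕ) :
    (dg N i).testBit j = (decide (j < 88) && N.testBit (88 * i + j)) := by
  unfold dg
  rw [Nat.testBit_mod_two_pow, Nat.testBit_div_two_pow, add_comm (88 * i) j]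

theorem dg_land (a b i : ℕ) : dg (Nat.land a b) i = Nat.land (dg a i) (dg b i) := by
  change dg (a &&& b) i = dg a i &&& dg b i
  apply Nat.eq_of_testBit_eq
  intro j
  rw [testBit_dg', Nat.testBit_and, Nat.testBit_and, testBit_dg', testBit_dg']
  cases decide (j < 88) <;> simp

theorem dg_rnd (N M i : ℕ) : dg (rnd N M) i = if i < M then dg N i / 2 ^ 40 else 0 := by
  unfold rnd
  rw [dg_land, dg_rep _ _ _ (by norm_num)]
  split_ifs with h
  · change dg (N / 2 ^ 40) i &&& (2 ^ 48 - 1) = _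
    rw [Nat.and_two_pow_sub_one_eq_mod]
    apply Nat.eq_of_testBit_eq
    intro j
    rw [Nat.testBit_mod_two_pow, testBit_dg', Nat.testBit_div_two_pow, Nat.testBit_div_two_pow,
      testBit_dg']
    by_cases hj : j < 48
    · have h1 : j < 88 := by omega
      have h2 : j + 40 < 88 := by omega
      simp only [hj, h1, h2, decide_true, Bool.true_and]
      congr 1
    · have h2 : ¬ j + 40 < 88 := by omega
      simp only [hj, h2, decide_false, Bool.false_and]
  · change dg (N / 2 ^ 40) i &&& 0 = 0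
    simp

theorem land_top (k x : ℕ) (h : x < 2 ^ k) : Nat.land x (2 ^ k) ≠ 2 ^ k := by
  intro e
  have h1 : Nat.testBit (Nat.land x (2 ^ k)) k = true := by
    rw [e]; exact Nat.testBit_two_pow_self
  change Nat.testBit (x &&& 2 ^ k) k = true at h1
  rw [Nat.testBit_and, Nat.testBit_lt_two_pow h] at h1
  simp at h1

theorem dg_sub' (m A B : ℕ) (hB : B < 2 ^ (88 * m)) (hle : ∀ j, dg B j ≤ dg A j) :
    B ≤ A ∧ ∀ j, dg (A - B) j = dg A j - dg B j := by
  induction m generalizing A B with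
  | zero =>
    simp only [Nat.mul_zero, pow_zero, Nat.lt_one_iff] at hB
    subst hB
    exact ⟨Nat.zero_le _, fun j => by simp [dg]⟩
  | succ m ih =>
    have hB' : B / 2 ^ 88 < 2 ^ (88 * m) := by
      rw [Nat.div_lt_iff_lt_mul (by positivity), ← pow_add]
      calc B < 2 ^ (88 * (m + 1)) := hB
        _ = _ := by congr 1
    obtain ⟨h1, h2⟩ := ih (A / 2 ^ 88) (B / 2 ^ 88) hB' fun j => by
      have := hle (j + 1); simpa only [dg_succ] using this
    have h0 := hle 0
    simp only [dg_zero] at h0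
    have eA := Nat.mod_add_div A (2 ^ 88)
    have eB := Nat.mod_add_div B (2 ^ 88)
    have hAB : A - B = (A % 2 ^ 88 - B % 2 ^ 88) + 2 ^ 88 * (A / 2 ^ 88 - B / 2 ^ 88) := by
      rw [Nat.mul_sub]
      have : 2 ^ 88 * (B / 2 ^ 88) ≤ 2 ^ 88 * (A / 2 ^ 88) := Nat.mul_le_mul_left _ h1
      omega
    have hlt : A % 2 ^ 88 - B % 2 ^ 88 < 2 ^ 88 :=
      lt_of_le_of_lt (Nat.sub_le _ _) (Nat.mod_lt _ (by positivity))
    refine ⟨?_, ?_⟩
    · have : 2 ^ 88 * (B / 2 ^ 88) ≤ 2 ^ 88 * (A / 2 ^ 88) := Nat.mul_le_mul_left _ h1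
      omega
    · intro j
      rw [hAB]
      cases j with
      | zero => rw [dg_zero, Nat.add_mul_mod_self_left, Nat.mod_eq_of_lt hlt, dg_zero, dg_zero]
      | succ j =>
        rw [dg_succ, Nat.add_mul_div_left _ _ (by positivity), Nat.div_eq_of_lt hlt, zero_add,
          h2 j, dg_succ A, dg_succ B]

theorem anti_le (N h i : ℕ) (hN : N < 2 ^ (88 * h)) (hd : ∀ i, dg N i < 2 ^ 87)
    (ha : anti N h = true) (hi : i + 1 < h) : dg N (i + 1) ≤ dg N i := by
  unfold anti at ha
  have ha' := Nat.eq_of_beq_eq_true ha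
  set X := N % 2 ^ (88 * (h - 1)) with hX
  set Y := N / 2 ^ 88 with hY
  set R := 2 ^ 87 * rep (h - 1) with hR
  have dX : ∀ j, dg X j = if j < h - 1 then dg N j else 0 := fun j => dg_mod _ _ _
  have dY : ∀ j, dg Y j = if j < h - 1 then dg N (j + 1) else 0 := by
    intro j
    have : dg Y j = dg N (j + 1) := by rw [hY, dg_succ]
    rw [this]
    split_ifs with h'
    · rfl
    · exact dg_of_lt _ h _ hN (by omega)
  have dR : ∀ j, dg R j = if j < h - 1 then 2 ^ 87 else 0 := fun j => dg_rep _ _ _ (by norm_num)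
  have dXR : ∀ j, dg (X + R) j = dg X j + dg R j := fun j => dg_add _ _ _ fun k => by
    rw [dX, dR]; have := hd k; split_ifs <;> omega
  have hYlt : Y < 2 ^ (88 * h) := lt_of_le_of_lt (Nat.div_le_self _ _) hN
  obtain ⟨_, hZ⟩ := dg_sub' h (X + R) Y hYlt fun j => by
    rw [dXR, dX, dY, dR]; have := hd (j + 1); split_ifs <;> omega
  have hb : dg (Nat.land (X + R - Y) R) i = dg R i := by rw [ha']
  rw [dg_land, dR, if_pos (by omega)] at hb
  have hz := hZ i
  rw [dXR, dX, dY, dR, if_pos (by omega), if_pos (by omega), if_pos (by omega)] at hz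
  rw [hz] at hb
  by_contra hlt
  push Not at hlt
  exact land_top 87 _ (by omega) hb

theorem digrnd : S_DigRnd := ⟨dg_rnd, anti_le⟩

end W841.PK.Chk
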