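import Pool.Agent.W841.PK.Dig

set_option autoImplicit false

namespace W841.PK.Chk

open Finset W841.PK

theorem frc_eq {α : Type} (n : ℕ) (f : ℕ → α) : frc n f = f n := by cases n <;> rfl

theorem fval_zero {fl fn fN fL fR : ℕ} (h : 1000 ≤ fl) : fval fl fn fN fL fR 0 = fL := by
  unfold fval
  rw [if_neg]
  rw [Nat.ble_eq]; omega

theorem AF_anti {fl fn fN fL fR : ℕ} (h : InvF fl fn fN fL fR) : Antitone (AF fl fn fN fL fR) := by
  intro i j hij
  unfold AF
  have := h.anti (i + 65536).toNat (j + 65536).toNat (Int.toNat_le_toNat (by omega))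
  have h' : (fval fl fn fN fL fR (j + 65536).toNat : ℝ) ≤
    (fval fl fn fN fL fR (i + 65536).toNat : ℝ) := by exact_mod_cast this
  exact div_le_div_of_nonneg_right h' (by positivity)

theorem AF_mem {fl fn fN fL fR : ℕ} (h : InvF fl fn fN fL fR) (i : ℤ) :
    0 ≤ AF fl fn fN fL fR i ∧ AF fl fn fN fL fR i ≤ 1 := by
  unfold AF
  refine ⟨by positivity, ?_⟩
  rw [div_le_one (by positivity)]
  have h1 := h.anti 0 (i + 65536).toNat (Nat.zero_le _)
  rw [fval_zero h.lo] at h1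
  exact_mod_cast h1.trans h.le

theorem AG_anti {gl gn gN : ℕ} (h : InvG gl gn gN) : Antitone (AG gl gn gN) := by
  intro i j hij
  unfold AG
  have := h.anti (i + 65536).toNat (j + 65536).toNat (Int.toNat_le_toNat (by omega))
  have h' : (gval gl gn gN (j + 65536).toNat : ℝ) ≤
    (gval gl gn gN (i + 65536).toNat : ℝ) := by exact_mod_cast this
  exact div_le_div_of_nonneg_right h' (by positivity)

theorem AG_mem {gl gn gN : ℕ} (h : InvG gl gn gN) (i : ℤ) :
    0 ≤ AG gl gn gN i ∧ AG gl gn gN i ≤ 1 := by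
  unfold AG
  refine ⟨by positivity, ?_⟩
  rw [div_le_one (by positivity)]
  have h1 := h.anti 0 (i + 65536).toNat (Nat.zero_le _)
  exact_mod_cast h1.trans h.le

/-- the Gaussian tail after `k` warm-up steps -/
noncomputable def Qk (k : ℕ) (y : ℝ) : ℝ :=
  if k = 0 then (if y ≤ 0 then 1 else 0) else Ph (-y / √((k : ℝ) / 64))

theorem Qk_step (hc : S_GConv) (k : ℕ) (y : ℝ) : heat (Qk k) (1 / 64) y = Qk (k + 1) y := by
  obtain ⟨h1, h2, _⟩ := hc
  unfold Qk
  rcases Nat.eq_zero_or_pos k with h0 | h0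
  · subst h0
    simp only [if_true]
    rw [h1 (1 / 64) y (by norm_num)]
    simp
  · have hk : k ≠ 0 := by omega
    have hk' : (0 : ℝ) < k := by exact_mod_cast h0
    simp only [hk, if_false]
    rw [if_neg (by omega), h2 ((k : ℝ) / 64) (1 / 64) y (by positivity) (by norm_num)]
    congr 3
    push_cast; ring

theorem Qk_mem (hG : S_Gauss) (k : ℕ) (y : ℝ) : 0 ≤ Qk k y ∧ Qk k y ≤ 1 := by
  unfold Qk
  obtain ⟨_, _, _, _, hb, _⟩ := hG
  split_ifs
  · norm_num
  · norm_num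
  · exact ⟨(hb _).1.le, (hb _).2.le⟩

theorem Qk_meas (hG : S_Gauss) (k : ℕ) : Measurable (Qk k) := by
  unfold Qk
  obtain ⟨_, _, _, hm, _⟩ := hG
  rcases Nat.eq_zero_or_pos k with h0 | h0
  · simp only [h0, if_true]
    exact Measurable.ite measurableSet_Iic measurable_const measurable_const
  · have hk : k ≠ 0 := by omega
    simp only [hk, if_false]
    exact hm.measurable.comp ((measurable_id.neg).div_const _)

theorem warm_sound (hG : S_Gauss) (hp : S_Pl) (hc : S_GConv) (hf : S_StepF) (hg : S_StepG0)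
    (k : ℕ → ℕ → ℕ → ℕ → ℕ → ℕ → ℕ → Bool) (l : List WHint) :
    ∀ (s fl fn fN fR gl gn gN : ℕ), InvF fl fn fN (2 ^ 40) fR → InvG gl gn gN →
      (∀ y, Qk s y ≤ pl (1 / 256) (AF fl fn fN (2 ^ 40) fR) y) →
      (∀ y, pl (1 / 256) (AG gl gn gN) y ≤ Qk s y) →
      warm k l fl fn fN fR gl gn gN = true →
      ∃ (fl fn fN fR gl gn gN : ℕ), InvF fl fn fN (2 ^ 40) fR ∧ InvG gl gn gN ∧
        (∀ y, Qk (s + l.length) y ≤ pl (1 / 256) (AF fl fn fN (2 ^ 40) fR) y) ∧
        (∀ y, pl (1 / 256) (AG gl gn gN) y ≤ Qk (s + l.length) y) ∧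
        k fl fn fN fR gl gn gN = true := by
  induction l with
  | nil =>
    intro s fl fn fN fR gl gn gN h1 h2 h3 h4 h5
    exact ⟨fl, fn, fN, fR, gl, gn, gN, h1, h2, h3, h4, h5⟩
  | cons x t ih =>
    intro s fl fn fN fR gl gn gN hF hGg h3 h4 h5
    obtain ⟨c, fn2, h, tr⟩ := x
    rw [warm, warmStep] at h5
    simp only [frc_eq, Bool.and_eq_true, Nat.ble_eq] at h5
    obtain ⟨⟨a1, a2, a3, a4, a5⟩, ⟨b1, b2, b3, b4, b5⟩, h6⟩ := h5
    have b5' := Nat.eq_of_beq_eq_true b5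
    have hδ : (0 : ℝ) < 1 / 256 := by norm_num
    have hsq : (32 * (1 / 256 : ℝ)) ^ 2 = 1 / 64 := by norm_num
    obtain ⟨F1, F2⟩ := hf (1 / 256) fl fn fN (2 ^ 40) fR (2 ^ 40) c fn2 hδ hF le_rfl a1 a2 a3 a4 a5
    obtain ⟨G1, G2⟩ := hg (1 / 256) gl gn gN h tr hδ hGg b1 b2 b3 b4 b5'
    have hF2 := F2 1 (by norm_num)
    rw [hsq] at hF2 G2
    obtain ⟨hc1, hc2, hc3⟩ := hc
    have NF := (hp (1 / 256) hδ).2.2.2.1 _ (AF_anti hF) (AF_mem hF)
    have NG := (hp (1 / 256) hδ).2.2.2.1 _ (AG_anti hGg) (AG_mem hGg)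
    have hA : ∀ y, Qk (s + 1) y ≤ heat (pl (1 / 256) (AF fl fn fN (2 ^ 40) fR)) (1 / 64) y := by
      intro y
      rw [← Qk_step ⟨hc1, hc2, hc3⟩]
      exact hc3 _ _ _ _ (Qk_meas hG s) NF.1.measurable (Qk_mem hG s) NF.2.1 h3
    have hB : ∀ y, heat (pl (1 / 256) (AG gl gn gN)) (1 / 64) y ≤ Qk (s + 1) y := by
      intro y
      rw [← Qk_step ⟨hc1, hc2, hc3⟩]
      exact hc3 _ _ _ _ NG.1.measurable (Qk_meas hG s) NG.2.1 (Qk_mem hG s) h4
    obtain ⟨fl', fn', fN', fR', gl', gn', gN', r1, r2, r3, r4, r5⟩ := ih (s + 1) _ _ _ _ _ _ _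
      F1 G1 (fun y => le_trans (le_min (Qk_mem hG _ y).2 (hA y)) (hF2 y))
      (fun y => (G2 y).trans (hB y)) h6
    refine ⟨fl', fn', fN', fR', gl', gn', gN', r1, r2, ?_, ?_, r5⟩
    · intro y
      rw [List.length_cons, show s + (t.length + 1) = s + 1 + t.length by omega]; exact r3 y
    · intro y
      rw [List.length_cons, show s + (t.length + 1) = s + 1 + t.length by omega]; exact r4 y

theorem cwarm (hG : S_Gauss) (hp : S_Pl) (hc : S_GConv) (hf : S_StepF) (hg : S_StepG0) :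
    S_CWarm := by
  intro k l hl hw
  have hδ : (0 : ℝ) < 1 / 256 := by norm_num
  have d0 : dg (2 ^ 40) 0 = 2 ^ 40 := by rw [dg_zero]; norm_num
  have dj : ∀ j, 1 ≤ j → dg (2 ^ 40) j = 0 := fun j hj => dg_of_lt _ 1 _ (by norm_num) hj
  have fv : ∀ i, fval 65536 1 (2 ^ 40) (2 ^ 40) 0 i = if i ≤ 65536 then 2 ^ 40 else 0 := by
    intro i
    unfold fval
    simp only [Nat.ble_eq]
    split_ifs with h1 h2 h3 h4 h5
    · omega
    · rfl
    · have : i - 65536 = 0 := by omega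
      rw [this, d0]
    · omega
    · rfl
    · omega
  have gv : ∀ i, gval 65535 1 (2 ^ 40) i = if i ≤ 65535 then 2 ^ 40 else 0 := by
    intro i
    unfold gval
    simp only [Nat.ble_eq]
    split_ifs with h1 h2 h3
    · omega
    · rfl
    · have : i - 65535 = 0 := by omega
      rw [this, d0]
    · omega
  have IF : InvF 65536 1 (2 ^ 40) (2 ^ 40) 0 := by
    refine ⟨le_rfl, by norm_num, by norm_num, ?_, le_rfl⟩
    intro i j hij
    rw [fv, fv]
    split_ifs <;> first | omega | simp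
  have IG : InvG 65535 1 (2 ^ 40) := by
    refine ⟨le_rfl, by norm_num, by norm_num, ?_, ?_⟩
    · intro i j hij
      rw [gv, gv]
      split_ifs <;> first | omega | simp
    · rw [gv]; simp
  have hs1 : ∀ y, Qk 0 y ≤ pl (1 / 256) (AF 65536 1 (2 ^ 40) (2 ^ 40) 0) y := by
    intro y
    have N := (hp (1 / 256) hδ).2.2.2.1 _ (AF_anti IF) (AF_mem IF)
    unfold Qk
    simp only [if_true]
    split_ifs with hy
    · have h0 := (hp (1 / 256) hδ).1 (AF 65536 1 (2 ^ 40) (2 ^ 40) 0) 0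
      have h1 := N.1 (show y ≤ ((0 : ℤ) : ℝ) * (1 / 256) by simpa using hy)
      rw [h0] at h1
      have : AF 65536 1 (2 ^ 40) (2 ^ 40) 0 0 = 1 := by
        unfold AF; rw [fv]; norm_num
      exact this.symm.le.trans h1
    · exact (N.2.1 y).1
  have hs2 : ∀ y, pl (1 / 256) (AG 65535 1 (2 ^ 40)) y ≤ Qk 0 y := by
    intro y
    have N := (hp (1 / 256) hδ).2.2.2.1 _ (AG_anti IG) (AG_mem IG)
    unfold Qk
    simp only [if_true]
    split_ifs with hy
    · exact (N.2.1 y).2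
    · have h0 := (hp (1 / 256) hδ).1 (AG 65535 1 (2 ^ 40)) 0
      have h1 := N.1 (show ((0 : ℤ) : ℝ) * (1 / 256) ≤ y by simp; linarith)
      rw [h0] at h1
      have : AG 65535 1 (2 ^ 40) 0 = 0 := by
        unfold AG; rw [gv]; norm_num
      exact h1.trans this.le
  obtain ⟨fl, fn, fN, fR, gl, gn, gN, r1, r2, r3, r4, r5⟩ :=
    warm_sound hG hp hc hf hg k l 0 _ _ _ _ _ _ _ IF IG hs1 hs2 hw
  refine ⟨fl, fn, fN, fR, gl, gn, gN, r1, r2, ?_, ?_, r5⟩
  · intro y
    have := r3 y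
    rw [hl] at this
    have e : Qk (0 + 64) y = Ph (-y) := by unfold Qk; norm_num
    rwa [e] at this
  · intro y
    have := r4 y
    rw [hl] at this
    have e : Qk (0 + 64) y = Ph (-y) := by unfold Qk; norm_num
    rwa [e] at this

end W841.PK.Chk
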