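import Pool.Agent.W841.PK.Main
import Pool.Agent.W841.PK.Warm
import Pool.Agent.W841.PK.Dig
import Pool.Agent.W841.PK.DigMul
import Pool.Agent.W841.PK.DigRnd
import Pool.Agent.W52.PK.DigRev
import Pool.Agent.W52.PK.TabW
import Pool.Agent.W932.PK.KapPos
import Pool.Agent.W45.PK.TabK
import Pool.Agent.W366.PK.TabC
import Pool.Agent.W374.PK.CBar
import Pool.Agent.W932.PK.StepF
import Pool.Agent.W374.PK.StepG0
import Pool.Agent.W925.PK.CRg
import Pool.Agent.W839.PK.CBlk
import Pool.Agent.W925.PK.CRun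

/-!
Project PK: assembly of the soundness theorems of the certificate.
-/

set_option autoImplicit false

namespace W841.PK

open Chk

theorem b_tabk : S_TabK :=
  Pool.Agent.W45.PK.tabk a_gauss a_kap (Pool.Agent.W932.PK.KapPos.kappos a_gauss a_kap)
theorem b_tabc : S_TabC := Pool.Agent.W366.PK.tabc a_gauss a_cm
theorem b_cbar : S_CBar :=
  W374.PK.CBar.cbar dig digmul b_tabc Pool.Agent.W52.PK.TabW.tabw a_pl a_sembar
theorem b_stepf : S_StepF :=
  Pool.Agent.W932.PK.StepF.stepf dig digmul digrnd b_tabk a_pl a_semup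
theorem b_stepg0 : S_StepG0 :=
  W374.PK.StepG0.stepg0 dig digmul digrnd b_tabk a_pl a_semlow
theorem b_crg : S_CRg :=
  Pool.Agent.W925.PK.crg dig (Pool.Agent.W52.PK.DigRev.digrev dig) a_pl a_regrid
theorem b_warm : S_CWarm := cwarm a_gauss a_pl a_gconv b_stepf b_stepg0
theorem b_blk (hg : S_StepG) (hq : S_CSq) : S_CBlk :=
  W839.PK.CBlk.cblk a_pl a_heatc b_stepf hg b_cbar hq
theorem b_run (hg : S_StepG) (hq : S_CSq) : S_CRun :=
  Pool.Agent.W925.PK.crun a_pl a_block (b_blk hg hq) b_crg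

theorem main_gq (hg : S_StepG) (hq : S_CSq) : ∃ n0 : ℕ, ∀ n ≥ n0,
    ∀ (S : Finset (Fin n)) (ρ : Rule n), S.card = Nat.sqrt n → IsRule ρ →
    1 / 2 ≤ Pr (fun G => Succ ρ (plant G S) S) := main_of b_warm (b_run hg hq)

end W841.PK
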