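import Pool.Agent.W841.PK.Tab

/-! The checker of the numerical certificate. All arrays are packed in natural numbers, digits in
base `2^88`, values scaled by `2^40`. -/

set_option autoImplicit false

namespace W841.PK.Chk

/-- `∑_{i<M} 2^(88 i)` -/
def rep (M : ℕ) : ℕ := (2 ^ (88 * M) - 1) / (2 ^ 88 - 1)

/-- digit `i` of `N` -/
def dg (N i : ℕ) : ℕ := N / 2 ^ (88 * i) % 2 ^ 88

/-- divide all of the first `M` digits by `2^40` -/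
def rnd (N M : ℕ) : ℕ := Nat.land (N / 2 ^ 40) ((2 ^ 48 - 1) * rep M)

/-- forces the kernel to evaluate `n` -/
def frc {α : Type} (n : ℕ) (f : ℕ → α) : α :=
  match n with
  | 0 => f 0
  | k + 1 => f (k + 1)

/-- the digits of `N` (first `h`) are non-increasing -/
def anti (N h : ℕ) : Bool :=
  Nat.beq (Nat.land (N % 2 ^ (88 * (h - 1)) + 2 ^ 87 * rep (h - 1) - N / 2 ^ 88)
    (2 ^ 87 * rep (h - 1))) (2 ^ 87 * rep (h - 1))

/-- the padded array of `F` -/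
def padF (fn fN fL fR : ℕ) : ℕ :=
  fL * rep 448 + 2 ^ (88 * 448) * (fN + 2 ^ (88 * fn) * (fR * rep 448))

/-- upper convolution (length `fn + 448`, starts at index `fl - 224`) -/
def convF (P fn : ℕ) : ℕ :=
  rnd ((P * KUn) / 2 ^ (88 * 448) % 2 ^ (88 * (fn + 448)) + (6 * 2 ^ 40 - 1) * rep (fn + 448))
    (fn + 448)

/-- reverse of the digits `0..k-1` of `N` -/
def rev : ℕ → ℕ → ℕ → ℕ
  | 0, _, acc => acc
  | k + 1, N, acc => frc (N / 2 ^ 88) fun N' => frc (acc * 2 ^ 88 + N % 2 ^ 88) fun a => rev k N' a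

/-- digits of `g` from index `b` on -/
def Mb (gl _gn gN b : ℕ) : ℕ :=
  if Nat.ble b gl then 2 ^ (88 * (gl - b)) * gN + dg gN 0 * rep (gl - b) else gN / 2 ^ (88 * (b - gl))

def Mlen (gl gn b : ℕ) : ℕ := gn + gl - b

/-- lower convolution of the reflected array, from index `b` on, length `len + 224` -/
def convG (M len : ℕ) : ℕ :=
  rnd (((rev 224 (M / 2 ^ 88 % 2 ^ (88 * 224)) 0 + 2 ^ (88 * 224) * M) * KLn) / 2 ^ (88 * 448))
    (len + 224)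

/-- the dot product of the lower masses with the digits `1..` of `M` -/
def Sq (W M q : ℕ) : ℕ := dg ((M / 2 ^ 88 % 2 ^ (88 * (56 * q))) * W) (56 * q - 1)

def FA (W P J q : ℕ) : ℕ := dg ((P / 2 ^ (88 * J) % 2 ^ (88 * (56 * q))) * W) (56 * q - 1)

def FB (V P J q : ℕ) : ℕ :=
  dg ((P / 2 ^ (88 * (J - 56 * (q + 1))) % 2 ^ (88 * (56 * (q + 1)))) * V) (56 * (q + 1) - 1)

/-- the conditions of the sub-interval `q`; `u0`, `u1` are its ends (times 1024) -/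
def barOK (D u0 u1 b j S F fl fn q : ℕ) : Bool :=
  Nat.ble (F * u1 + u1 * 2 ^ 53) (1024 * 2 ^ 81) &&
  (Nat.ble (j * 2 ^ 90 + D * 2 ^ 60) (b * 2 ^ 90 + D * S * u0) &&
  (Nat.ble (fl + 56 * (q + 1)) (j + 448) && Nat.ble (j + 56 * q + 1) (fl + fn + 448)))

/-- one block: check and continue with the new state -/
def blkStep (vn D fl fn fN fL fR gl gn gN j0 j1 j2 j3 b h c fn2 : ℕ)
    (k : ℕ → ℕ → ℕ → ℕ → ℕ → ℕ → ℕ → ℕ → ℕ → Bool) : Bool :=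
  frc (padF fn fN fL fR) fun P =>
  frc (Mb gl gn gN b) fun M =>
  (barOK D vn (vn + (256 / D) ^ 2) b j0 (Sq WL1 M 1)
      (2 ^ 40 * dg P (j0 - (fl - 448)) + FB VU1 P (j0 - (fl - 448)) 0) fl fn 0 &&
    (barOK D (vn + (256 / D) ^ 2) (vn + (256 / D) ^ 2 * 4) b j1 (Sq WL2 M 2)
      (FA WU1 P (j1 - (fl - 448)) 1 + FB VU2 P (j1 - (fl - 448)) 1) fl fn 1 &&
    (barOK D (vn + (256 / D) ^ 2 * 4) (vn + (256 / D) ^ 2 * 9) b j2 (Sq WL3 M 3)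
      (FA WU2 P (j2 - (fl - 448)) 2 + FB VU3 P (j2 - (fl - 448)) 2) fl fn 2 &&
    barOK D (vn + (256 / D) ^ 2 * 9) (vn + (256 / D) ^ 2 * 16) b j3 (Sq WL4 M 4)
      (FA WU3 P (j3 - (fl - 448)) 3 + FB VU4 P (j3 - (fl - 448)) 3) fl fn 3))) &&
  (frc (convG M (Mlen gl gn b)) fun N2 =>
   frc (N2 % 2 ^ (88 * h) - 11 * rep h) fun gN2 =>
   (Nat.ble 11 (dg N2 h) && (anti (N2 % 2 ^ (88 * (h + 1))) (h + 1) &&
      (Nat.ble 1 h && Nat.ble 1000 b))) &&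
   (frc (convF P fn) fun NF =>
    frc (vn + (256 / D) ^ 2 * 16) fun vn2 =>
    frc ((2 ^ 50 + vn2 - 1) / vn2) fun cap =>
    (Nat.ble (dg NF (c - 1)) cap && (Nat.ble 1 c && (Nat.ble 1 fn2 &&
      (Nat.ble (c + fn2 + 1) (fn + 448) && Nat.ble 1224 (fl + c))))) &&
    (frc (NF / 2 ^ (88 * c) % 2 ^ (88 * fn2)) fun fN2 =>
     frc (dg NF (c + fn2)) fun fR2 =>
     frc (fl - 224 + c) fun fl2 =>
     k vn2 fl2 fn2 fN2 cap fR2 b h gN2)))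

/-- value of `F` at index `i` -/
def fval (fl fn fN fL fR i : ℕ) : ℕ :=
  if Nat.ble fl i then (if Nat.ble (fl + fn) i then fR else dg fN (i - fl)) else fL

/-- value of `g` at index `i` -/
def gval (gl gn gN i : ℕ) : ℕ :=
  if Nat.ble (gl + gn) i then 0 else dg gN (i - gl)

/-- array of the values `f (i0 + r k)`, `k < n` -/
def pick (f : ℕ → ℕ) (r : ℕ) : ℕ → ℕ → ℕ → ℕ
  | 0, _, acc => acc
  | n + 1, i, acc =>
    -- `i` is the last index, goes down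
    frc (acc * 2 ^ 88 + f i) fun a => frc (i - r) fun i' => pick f r n i' a

/-- one regridding -/
def rgStep (D fl fn fN fL fR gl gn gN r fl2 fn2 gl2 gn2 : ℕ)
    (k : ℕ → ℕ → ℕ → ℕ → ℕ → ℕ → ℕ → ℕ → Bool) : Bool :=
  (Nat.ble 1 fn2 && (Nat.ble 1 gn2 && (Nat.beq (D % r) 0 && (Nat.ble 1 r &&
    (Nat.ble (fl + (r - 1) * 65537) (r * fl2) && (Nat.ble (gl + (r - 1) * 65535) (r * gl2) &&
    (Nat.ble (gl + gn + (r - 1) * 65535) (r * (gl2 + gn2)) &&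
    (Nat.ble 1000 fl2 && Nat.ble 1000 gl2)))))))) &&
  (frc (pick (fval fl fn fN fL fR) r fn2 (r * (fl2 + fn2 - 1) - (r - 1) * 65537) 0) fun fN2 =>
   frc (fval fl fn fN fL fR (r * (fl2 + fn2) - (r - 1) * 65537)) fun fR2 =>
   frc (pick (gval gl gn gN) r gn2 (r * (gl2 + gn2 - 1) - (r - 1) * 65535) 0) fun gN2 =>
   frc (D / r) fun D2 =>
   k D2 fl2 fn2 fN2 fR2 gl2 gn2 gN2)

/-- the main run -/
def run : List Hint → ℕ → ℕ → ℕ → ℕ → ℕ → ℕ → ℕ → ℕ → ℕ → ℕ → Bool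
  | [], vn, D, _, _, _, _, _, gl, gn, gN =>
    Nat.beq vn (256 * 1024) && Nat.beq D 16 && Nat.ble (11 * 2 ^ 40) (20 * gval gl gn gN 65024)
  | .blk j0 j1 j2 j3 b h c fn2 :: t, vn, D, fl, fn, fN, fL, fR, gl, gn, gN =>
    blkStep vn D fl fn fN fL fR gl gn gN j0 j1 j2 j3 b h c fn2
      fun vn2 fl2 fn2 fN2 fL2 fR2 gl2 gn2 gN2 => run t vn2 D fl2 fn2 fN2 fL2 fR2 gl2 gn2 gN2
  | .rg r fl2 fn2 gl2 gn2 :: t, vn, D, fl, fn, fN, fL, fR, gl, gn, gN =>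
    rgStep D fl fn fN fL fR gl gn gN r fl2 fn2 gl2 gn2
      fun D2 fl2 fn2 fN2 fR2 gl2 gn2 gN2 => run t vn D2 fl2 fn2 fN2 fL fR2 gl2 gn2 gN2

/-- lower convolution of the array of `g` without reflection; starts at `gl - 224` -/
def convG0 (gn gN : ℕ) : ℕ :=
  rnd (((dg gN 0 * rep 448 + 2 ^ (88 * 448) * gN) * KLn) / 2 ^ (88 * 448)) (gn + 448)

/-- one warm-up step (`cap = 2^40`) -/
def warmStep (fl fn fN fL fR gl gn gN c fn2 h tr : ℕ)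
    (k : ℕ → ℕ → ℕ → ℕ → ℕ → ℕ → ℕ → Bool) : Bool :=
  frc (convF (padF fn fN fL fR) fn) fun NF =>
  (Nat.ble (dg NF (c - 1)) (2 ^ 40) && (Nat.ble 1 c && (Nat.ble 1 fn2 &&
    (Nat.ble (c + fn2 + 1) (fn + 448) && Nat.ble 1224 (fl + c))))) &&
  (frc (convG0 gn gN) fun N2 =>
   (Nat.ble 11 (dg N2 h) && (anti (N2 % 2 ^ (88 * (h + 1))) (h + 1) &&
     (Nat.ble (tr + 1) h && (Nat.ble 1224 (gl + tr) && Nat.beq (dg N2 0) (dg N2 tr))))) &&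
   (frc (NF / 2 ^ (88 * c) % 2 ^ (88 * fn2)) fun fN2 =>
    frc (dg NF (c + fn2)) fun fR2 =>
    frc (fl - 224 + c) fun fl2 =>
    frc ((N2 % 2 ^ (88 * h) - 11 * rep h) / 2 ^ (88 * tr)) fun gN2 =>
    frc (gl - 224 + tr) fun gl2 =>
    frc (h - tr) fun gn2 =>
    k fl2 fn2 fN2 fR2 gl2 gn2 gN2))

/-- the warm-up, then `k` -/
def warm (k : ℕ → ℕ → ℕ → ℕ → ℕ → ℕ → ℕ → Bool) :
    List WHint → ℕ → ℕ → ℕ → ℕ → ℕ → ℕ → ℕ → Bool
  | [], fl, fn, fN, fR, gl, gn, gN => k fl fn fN fR gl gn gN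
  | ⟨c, fn2, h, tr⟩ :: t, fl, fn, fN, fR, gl, gn, gN =>
    warmStep fl fn fN (2 ^ 40) fR gl gn gN c fn2 h tr (warm k t)

/-- the whole check -/
def chkAll : Bool :=
  Nat.beq warmHints.length 64 &&
  warm (fun fl fn fN fR gl gn gN => run hints 1024 256 fl fn fN (2 ^ 40) fR gl gn gN) warmHints
    65536 1 (2 ^ 40) 0 65535 1 (2 ^ 40)

end W841.PK.Chk
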