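import Pool.Agent.W841.PK.Chk

/-! The kernel evaluation of the certificate (about half a minute). -/

set_option autoImplicit false
set_option maxRecDepth 100000

namespace W841.PK.Chk

theorem chkAll_true : chkAll = true := by decide +kernel

end W841.PK.Chk
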