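import Pool.Agent.W841.PK.Stm2

/-! Statements used by the numerical certificate: piecewise linear functions on a grid and the heat
flow. The grid has mesh `δ`, one heat step has variance `(32 δ)^2`, kernels are truncated at
`224 = 7 * 32` grid points. -/

set_option autoImplicit false

namespace W841.PK

open Finset
open scoped Classical

noncomputable section

/-- piecewise linear interpolation of the values `A i` at the points `i * δ` -/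
def pl (δ : ℝ) (A : ℤ → ℝ) (y : ℝ) : ℝ :=
  A ⌊y / δ⌋ + (y / δ - ⌊y / δ⌋) * (A (⌊y / δ⌋ + 1) - A ⌊y / δ⌋)

/-- weights of the heat step on piecewise linear functions -/
def kap (m : ℤ) : ℝ := ∫ x : ℝ, max 0 (1 - |32 * x - (m : ℝ)|) * gd x

/-- mass of the cell `[iκ, (i+1)κ)` under `|Z|` -/
def cm (κ : ℝ) (i : ℕ) : ℝ := 2 * (Ph ((i + 1) * κ) - Ph (i * κ))

/-- interpolation error weights for lower bounds -/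
def mmw (m : ℤ) : ℝ :=
  max 0 ((((|m| : ℤ) + 2 : ℝ) / 32) ^ 2 - 1) * gd (max 0 (((|m| : ℤ) - 2 : ℝ)) / 32) / (8 * 32 ^ 3)

/-- basic facts on piecewise linear functions -/
def S_Pl : Prop :=
  ∀ (δ : ℝ), 0 < δ →
    (∀ A : ℤ → ℝ, ∀ l : ℤ, pl δ A (l * δ) = A l) ∧
    (∀ (A : ℤ → ℝ) (l : ℤ) (s : ℝ), 0 ≤ s → s ≤ 1 →
      pl δ A ((l + s) * δ) = (1 - s) * A l + s * A (l + 1)) ∧
    (∀ A B : ℤ → ℝ, (∀ i, A i ≤ B i) → ∀ y, pl δ A y ≤ pl δ B y) ∧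
    (∀ A : ℤ → ℝ, Antitone A → (∀ i, 0 ≤ A i ∧ A i ≤ 1) → Nice (pl δ A)) ∧
    (∀ (A : ℤ → ℝ) (b : ℤ) (y : ℝ),
      refl (b * δ) (pl δ A) y = pl δ (fun i => A (b + |i - b|)) y) ∧
    (∀ (A : ℤ → ℝ) (b : ℤ) (y : ℝ), (∀ i ≤ b, A i = A b) →
      pl δ A y = pl δ A (max y (b * δ))) ∧
    -- capping
    (∀ (A A' : ℤ → ℝ) (c : ℤ) (κ : ℝ), (∀ l < c, κ ≤ A' l) → (∀ l < c, A' l = A' (c - 1)) →
      (∀ l ≥ c, A l ≤ A' l) → A (c - 1) ≤ A' (c - 1) → Antitone A →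
      ∀ y, min κ (pl δ A y) ≤ pl δ A' y) ∧
    -- cutting the lower bound off
    (∀ (A A' : ℤ → ℝ) (b h : ℤ) (f : ℝ → ℝ), (∀ y, 0 ≤ f y) → (∀ y, b * δ ≤ y → pl δ A y ≤ f y) →
      (∀ l, b ≤ l → l < h → A' l ≤ A l) → (∀ l ≥ h, A' l = 0) → 0 ≤ A h →
      ∀ y, b * δ ≤ y → pl δ A' y ≤ f y)

/-- passing to a coarser grid -/
def S_Regrid : Prop :=
  ∀ (δ : ℝ) (r : ℕ) (A : ℤ → ℝ), 0 < δ → 1 ≤ r → Antitone A →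
    (∀ y, pl δ A y ≤ pl (r * δ) (fun l => A (r * l - (r - 1))) y) ∧
    (∀ y, pl (r * δ) (fun l => A (r * l + (r - 1))) y ≤ pl δ A y)

/-- Taylor bounds for the weights -/
def S_Kap : Prop :=
  (∀ m : ℤ, |kap m - gd (m / 32) / 32 * (1 + ((m / 32 : ℝ) ^ 2 - 1) / (12 * 32 ^ 2))| ≤
    1 / (300 * 32 ^ 5)) ∧
  (∀ m : ℤ, 0 ≤ kap m) ∧ ∑ m ∈ Finset.Icc (-224 : ℤ) 224, kap m ≤ 1

def S_Cm : Prop :=
  ∀ (κ : ℝ) (i : ℕ), 0 < κ → κ ≤ 1 →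
    |cm κ i - 2 * κ * gd ((i + 1 / 2) * κ) * (1 + κ ^ 2 * (((i + 1 / 2) * κ) ^ 2 - 1) / 24)| ≤
      κ ^ 5 / 800

/-- tails beyond 7 standard deviations -/
def S_Tail7 : Prop := Ph (-7) ≤ 2 / 10 ^ 12 ∧ Ph (-(69 / 10)) ≤ 4 / 10 ^ 12

/-- values of the heat flow at grid points -/
def S_GridUp : Prop :=
  ∀ (δ : ℝ) (A : ℤ → ℝ) (l : ℤ), 0 < δ → (∀ i, 0 ≤ A i ∧ A i ≤ 1) →
    heat (pl δ A) ((32 * δ) ^ 2) (l * δ) ≤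
      ∑ m ∈ Finset.Icc (-224 : ℤ) 224, kap m * A (l - m) + 4 / 10 ^ 12

def S_GridLow : Prop :=
  ∀ (δ : ℝ) (A : ℤ → ℝ) (l : ℤ), 0 < δ → (∀ i, 0 ≤ A i ∧ A i ≤ 1) →
    ∑ m ∈ Finset.Icc (-224 : ℤ) 224, kap m * A (l - m) ≤
      heat (pl δ A) ((32 * δ) ^ 2) (l * δ)

/-- interpolation error, upper bound -/
def S_InterpUp : Prop :=
  ∀ (δ : ℝ) (A : ℤ → ℝ) (l : ℤ) (s : ℝ), 0 < δ → Antitone A → (∀ i, 0 ≤ A i ∧ A i ≤ 1) →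
    0 ≤ s → s ≤ 1 →
    heat (pl δ A) ((32 * δ) ^ 2) ((l + s) * δ) ≤
      (1 - s) * heat (pl δ A) ((32 * δ) ^ 2) (l * δ) +
      s * heat (pl δ A) ((32 * δ) ^ 2) ((l + 1) * δ) +
      1 / (20 * 32 ^ 3) * ∑ m ∈ Finset.Icc (-32 : ℤ) 32, A (l - m)

/-- interpolation error, lower bound -/
def S_InterpLow : Prop :=
  ∀ (δ : ℝ) (A : ℤ → ℝ) (l : ℤ) (s : ℝ), 0 < δ → (∀ i, 0 ≤ A i ∧ A i ≤ 1) →
    0 ≤ s → s ≤ 1 →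
    (1 - s) * heat (pl δ A) ((32 * δ) ^ 2) (l * δ) +
      s * heat (pl δ A) ((32 * δ) ^ 2) ((l + 1) * δ) -
      (1 - s) * ∑ m ∈ Finset.Icc (-224 : ℤ) 224, mmw m * A (l - m) -
      s * ∑ m ∈ Finset.Icc (-224 : ℤ) 224, mmw m * A (l + 1 - m) - 1 / 10 ^ 11 ≤
    heat (pl δ A) ((32 * δ) ^ 2) ((l + s) * δ)

/-- upper heat step -/
def S_SemUp : Prop :=
  ∀ (δ : ℝ) (A A' : ℤ → ℝ) (K : ℤ → ℝ), 0 < δ → Antitone A → (∀ i, 0 ≤ A i ∧ A i ≤ 1) →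
    (∀ m, |m| ≤ 224 → kap m + (if |m| ≤ 33 then 1 / (20 * 32 ^ 3) else 0) ≤ K m) →
    (∀ l, ∑ m ∈ Finset.Icc (-224 : ℤ) 224, K m * A (l - m) + 4 / 10 ^ 12 ≤ A' l) →
    ∀ y, heat (pl δ A) ((32 * δ) ^ 2) y ≤ pl δ A' y

/-- lower heat step -/
def S_SemLow : Prop :=
  ∀ (δ : ℝ) (A A' : ℤ → ℝ) (K : ℤ → ℝ) (b : ℤ), 0 < δ → (∀ i, 0 ≤ A i ∧ A i ≤ 1) →
    (∀ m, |m| ≤ 224 → K m ≤ kap m - mmw m) →
    (∀ l ≥ b, A' l ≤ ∑ m ∈ Finset.Icc (-224 : ℤ) 224, K m * A (l - m) - 1 / 10 ^ 11) →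
    ∀ y, b * δ ≤ y → pl δ A' y ≤ heat (pl δ A) ((32 * δ) ^ 2) y

/-- upper bound for the heat flow during a time window (`q` from `0` to `3`) -/
def S_SemBar : Prop :=
  ∀ (F : ℝ → ℝ) (δ Y θ : ℝ) (q : ℕ) (j : ℤ), 0 < δ → Antitone F → (∀ y, 0 ≤ F y ∧ F y ≤ 1) →
    (8 * q * δ) ^ 2 ≤ θ → θ ≤ (8 * (q + 1) * δ) ^ 2 → j * δ ≤ Y →
    heat F θ Y ≤
      ((if q = 0 then F (j * δ) else
          ∑ i ∈ range (56 * q), cm (1 / (8 * q)) i * F ((j + i) * δ)) +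
        ∑ i ∈ range (56 * (q + 1)), cm (1 / (8 * (q + 1))) i * F ((j - 1 - i) * δ)) / 2 +
      4 / 10 ^ 12

/-- lower bound for the surviving mass above `B` -/
def S_SemP : Prop :=
  ∀ (g : ℝ → ℝ) (δ B : ℝ) (q : ℕ), 0 < δ → 1 ≤ q → Antitone g → (∀ y, 0 ≤ g y ∧ g y ≤ 1) →
    ∑ i ∈ range (56 * q), cm (1 / (8 * q)) i * g (B + (i + 1) * δ) ≤
      heat (refl B g) ((8 * q * δ) ^ 2) B

/-- Gaussian convolution -/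
def S_GConv : Prop :=
  (∀ τ y : ℝ, 0 < τ → heat (fun x => if x ≤ 0 then 1 else 0) τ y = Ph (-y / √τ)) ∧
  (∀ v τ y : ℝ, 0 < v → 0 < τ → heat (fun x => Ph (-x / √v)) τ y = Ph (-y / √(v + τ))) ∧
  (∀ (f g : ℝ → ℝ) (θ y : ℝ), Measurable f → Measurable g → (∀ x, 0 ≤ f x ∧ f x ≤ 1) →
    (∀ x, 0 ≤ g x ∧ g x ≤ 1) → (∀ x, f x ≤ g x) → heat f θ y ≤ heat g θ y)

end

end W841.PK
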