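import Pool.Agent.W841.PK.Chk
import Pool.Agent.W841.PK.Num

/-! Statements about the checker of the numerical certificate. -/

set_option autoImplicit false

namespace W841.PK.Chk

open Finset W841.PK

/-! ### Digits -/

/-- elementary digit facts -/
def S_Dig : Prop :=
  (∀ A B i, (∀ i, dg A i + dg B i < 2 ^ 88) → dg (A + B) i = dg A i + dg B i) ∧
  (∀ N k i, dg (2 ^ (88 * k) * N) i = if i < k then 0 else dg N (i - k)) ∧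
  (∀ N k i, dg (N / 2 ^ (88 * k)) i = dg N (i + k)) ∧
  (∀ N M i, dg (N % 2 ^ (88 * M)) i = if i < M then dg N i else 0) ∧
  (∀ c M i, c < 2 ^ 88 → dg (c * rep M) i = if i < M then c else 0) ∧
  (∀ N h c i, N < 2 ^ (88 * h) → (∀ i < h, c ≤ dg N i) →
    dg (N - c * rep h) i = if i < h then dg N i - c else 0) ∧
  (∀ N h c, N < 2 ^ (88 * h) → N - c * rep h < 2 ^ (88 * h)) ∧
  (∀ N M i, N < 2 ^ (88 * M) → M ≤ i → dg N i = 0) ∧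
  (∀ N i, dg N i < 2 ^ 88)

/-- product of packed arrays = convolution -/
def S_DigMul : Prop :=
  ∀ X Y n B l, (∀ i, dg X i ≤ B) → Y < 2 ^ (88 * n) → B * (∑ m ∈ range n, dg Y m) < 2 ^ 88 →
    dg (X * Y) l = ∑ m ∈ range n, if m ≤ l then dg Y m * dg X (l - m) else 0

def S_DigRnd : Prop :=
  (∀ N M i, dg (rnd N M) i = if i < M then dg N i / 2 ^ 40 else 0) ∧
  (∀ N h i, N < 2 ^ (88 * h) → (∀ i, dg N i < 2 ^ 87) → anti N h = true → i + 1 < h →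
    dg N (i + 1) ≤ dg N i)

def S_DigRev : Prop :=
  (∀ k N i, dg (rev k N 0) i = if i < k then dg N (k - 1 - i) else 0) ∧
  (∀ (f : ℕ → ℕ) r n i0 j, (∀ i, f i < 2 ^ 88) → 1 ≤ n →
    dg (pick f r n i0 0) j = if j < n then f (i0 - r * (n - 1 - j)) else 0) ∧
  (∀ (f : ℕ → ℕ) r n i0, (∀ i, f i < 2 ^ 88) → pick f r n i0 0 < 2 ^ (88 * n))

/-! ### Tables -/

/-- the packed kernels and the true weights -/
def S_TabK : Prop :=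
  KUn < 2 ^ (88 * 449) ∧ KLn < 2 ^ (88 * 449) ∧
  (∀ m < 449, dg KUn (448 - m) = dg KUn m ∧ dg KLn (448 - m) = dg KLn m) ∧
  ∑ m ∈ range 449, dg KUn m < 2 ^ 41 ∧ ∑ m ∈ range 449, dg KLn m ≤ 2 ^ 40 ∧
  (∀ m : ℤ, |m| ≤ 224 → (kap m + (if |m| ≤ 33 then 1 / (20 * 32 ^ 3) else 0)) * 2 ^ 40 ≤
    (dg KUn (m + 224).toNat : ℝ)) ∧
  (∀ m : ℤ, |m| ≤ 224 → (dg KLn (m + 224).toNat : ℝ) ≤ (kap m - mmw m) * 2 ^ 40)

/-- the lower weights are nonnegative -/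
def S_KapPos : Prop := ∀ m : ℤ, |m| ≤ 224 → mmw m ≤ kap m

/-- the lists of cell masses, `q = 1, 2, 3, 4` -/
def S_TabC : Prop :=
  (∀ i < 56, cm (1 / 8) i * 2 ^ 40 ≤ (CU1.getD i 0 : ℝ) ∧ (CL1.getD i 0 : ℝ) ≤ cm (1 / 8) i * 2 ^ 40) ∧
  (∀ i < 112, cm (1 / 16) i * 2 ^ 40 ≤ (CU2.getD i 0 : ℝ) ∧
    (CL2.getD i 0 : ℝ) ≤ cm (1 / 16) i * 2 ^ 40) ∧
  (∀ i < 168, cm (1 / 24) i * 2 ^ 40 ≤ (CU3.getD i 0 : ℝ) ∧
    (CL3.getD i 0 : ℝ) ≤ cm (1 / 24) i * 2 ^ 40) ∧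
  (∀ i < 224, cm (1 / 32) i * 2 ^ 40 ≤ (CU4.getD i 0 : ℝ) ∧
    (CL4.getD i 0 : ℝ) ≤ cm (1 / 32) i * 2 ^ 40)

/-- the packed cell masses -/
def S_TabW : Prop :=
  (∀ i < 56, dg WU1 (55 - i) = CU1.getD i 0 ∧ dg VU1 i = CU1.getD i 0 ∧
    dg WL1 (55 - i) = CL1.getD i 0) ∧
  (∀ i < 112, dg WU2 (111 - i) = CU2.getD i 0 ∧ dg VU2 i = CU2.getD i 0 ∧
    dg WL2 (111 - i) = CL2.getD i 0) ∧
  (∀ i < 168, dg WU3 (167 - i) = CU3.getD i 0 ∧ dg VU3 i = CU3.getD i 0 ∧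
    dg WL3 (167 - i) = CL3.getD i 0) ∧
  (∀ i < 224, dg WU4 (223 - i) = CU4.getD i 0 ∧ dg VU4 i = CU4.getD i 0 ∧
    dg WL4 (223 - i) = CL4.getD i 0) ∧
  (WU1 < 2 ^ (88 * 56) ∧ VU1 < 2 ^ (88 * 56) ∧ WL1 < 2 ^ (88 * 56)) ∧
  (WU2 < 2 ^ (88 * 112) ∧ VU2 < 2 ^ (88 * 112) ∧ WL2 < 2 ^ (88 * 112)) ∧
  (WU3 < 2 ^ (88 * 168) ∧ VU3 < 2 ^ (88 * 168) ∧ WL3 < 2 ^ (88 * 168)) ∧
  (WU4 < 2 ^ (88 * 224) ∧ VU4 < 2 ^ (88 * 224) ∧ WL4 < 2 ^ (88 * 224)) ∧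
  ((∑ i ∈ range 56, dg WU1 i < 2 ^ 41 ∧ ∑ i ∈ range 56, dg VU1 i < 2 ^ 41 ∧
      ∑ i ∈ range 56, dg WL1 i < 2 ^ 41) ∧
    (∑ i ∈ range 112, dg WU2 i < 2 ^ 41 ∧ ∑ i ∈ range 112, dg VU2 i < 2 ^ 41 ∧
      ∑ i ∈ range 112, dg WL2 i < 2 ^ 41) ∧
    (∑ i ∈ range 168, dg WU3 i < 2 ^ 41 ∧ ∑ i ∈ range 168, dg VU3 i < 2 ^ 41 ∧
      ∑ i ∈ range 168, dg WL3 i < 2 ^ 41) ∧
    (∑ i ∈ range 224, dg WU4 i < 2 ^ 41 ∧ ∑ i ∈ range 224, dg VU4 i < 2 ^ 41 ∧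
      ∑ i ∈ range 224, dg WL4 i < 2 ^ 41))

/-! ### States -/

/-- the array of `F` as a function on the grid (index `65536` is the point `0`) -/
noncomputable def AF (fl fn fN fL fR : ℕ) (l : ℤ) : ℝ :=
  (fval fl fn fN fL fR (l + 65536).toNat : ℝ) / 2 ^ 40

/-- the array of `g` as a function on the grid -/
noncomputable def AG (gl gn gN : ℕ) (l : ℤ) : ℝ := (gval gl gn gN (l + 65536).toNat : ℝ) / 2 ^ 40

structure InvF (fl fn fN fL fR : ℕ) : Prop where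
  one : 1 ≤ fn
  lo : 1000 ≤ fl
  lt : fN < 2 ^ (88 * fn)
  anti : ∀ i j, i ≤ j → fval fl fn fN fL fR j ≤ fval fl fn fN fL fR i
  le : fL ≤ 2 ^ 40

structure InvG (gl gn gN : ℕ) : Prop where
  one : 1 ≤ gn
  lo : 1000 ≤ gl
  lt : gN < 2 ^ (88 * gn)
  anti : ∀ i j, i ≤ j → gval gl gn gN j ≤ gval gl gn gN i
  le : gval gl gn gN 0 ≤ 2 ^ 40

/-- one upper step -/
def S_StepF : Prop :=
  ∀ (δ : ℝ) (fl fn fN fL fR cap c fn2 : ℕ), 0 < δ → InvF fl fn fN fL fR → cap ≤ 2 ^ 40 →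
    dg (convF (padF fn fN fL fR) fn) (c - 1) ≤ cap → 1 ≤ c → 1 ≤ fn2 → c + fn2 + 1 ≤ fn + 448 →
    1224 ≤ fl + c →
    InvF (fl - 224 + c) fn2 (convF (padF fn fN fL fR) fn / 2 ^ (88 * c) % 2 ^ (88 * fn2)) cap
      (dg (convF (padF fn fN fL fR) fn) (c + fn2)) ∧
    ∀ κ : ℝ, κ * 2 ^ 40 ≤ cap → ∀ y,
      min κ (heat (pl δ (AF fl fn fN fL fR)) ((32 * δ) ^ 2) y) ≤
        pl δ (AF (fl - 224 + c) fn2 (convF (padF fn fN fL fR) fn / 2 ^ (88 * c) % 2 ^ (88 * fn2))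
          cap (dg (convF (padF fn fN fL fR) fn) (c + fn2))) y

/-- one lower step with reflection at the grid point `b` -/
def S_StepG : Prop :=
  ∀ (δ : ℝ) (gl gn gN b h : ℕ), 0 < δ → InvG gl gn gN →
    11 ≤ dg (convG (Mb gl gn gN b) (Mlen gl gn b)) h →
    anti (convG (Mb gl gn gN b) (Mlen gl gn b) % 2 ^ (88 * (h + 1))) (h + 1) = true →
    1 ≤ h → 1000 ≤ b →
    InvG b h (convG (Mb gl gn gN b) (Mlen gl gn b) % 2 ^ (88 * h) - 11 * rep h) ∧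
    ∀ y, pl δ (AG b h (convG (Mb gl gn gN b) (Mlen gl gn b) % 2 ^ (88 * h) - 11 * rep h)) y ≤
      heat (refl (((b : ℝ) - 65536) * δ) (pl δ (AG gl gn gN))) ((32 * δ) ^ 2)
        (max y (((b : ℝ) - 65536) * δ))

/-- one lower step without reflection -/
def S_StepG0 : Prop :=
  ∀ (δ : ℝ) (gl gn gN h tr : ℕ), 0 < δ → InvG gl gn gN →
    11 ≤ dg (convG0 gn gN) h →
    anti (convG0 gn gN % 2 ^ (88 * (h + 1))) (h + 1) = true →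
    tr + 1 ≤ h → 1224 ≤ gl + tr → dg (convG0 gn gN) 0 = dg (convG0 gn gN) tr →
    InvG (gl - 224 + tr) (h - tr) ((convG0 gn gN % 2 ^ (88 * h) - 11 * rep h) / 2 ^ (88 * tr)) ∧
    ∀ y, pl δ (AG (gl - 224 + tr) (h - tr)
      ((convG0 gn gN % 2 ^ (88 * h) - 11 * rep h) / 2 ^ (88 * tr))) y ≤
      heat (pl δ (AG gl gn gN)) ((32 * δ) ^ 2) y

/-- meaning of the window sums -/
def S_CBar : Prop :=
  ∀ (δ Y θ : ℝ) (fl fn fN fL fR j q : ℕ), 0 < δ → InvF fl fn fN fL fR → q < 4 →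
    fl + 56 * (q + 1) ≤ j + 448 → j + 56 * q + 1 ≤ fl + fn + 448 →
    (8 * q * δ) ^ 2 ≤ θ → θ ≤ (8 * (q + 1) * δ) ^ 2 → ((j : ℝ) - 65536) * δ ≤ Y →
    heat (pl δ (AF fl fn fN fL fR)) θ Y ≤
      ((((match q with
        | 0 => 2 ^ 40 * dg (padF fn fN fL fR) (j - (fl - 448)) +
            FB VU1 (padF fn fN fL fR) (j - (fl - 448)) 0
        | 1 => FA WU1 (padF fn fN fL fR) (j - (fl - 448)) 1 +
            FB VU2 (padF fn fN fL fR) (j - (fl - 448)) 1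
        | 2 => FA WU2 (padF fn fN fL fR) (j - (fl - 448)) 2 +
            FB VU3 (padF fn fN fL fR) (j - (fl - 448)) 2
        | _ => FA WU3 (padF fn fN fL fR) (j - (fl - 448)) 3 +
            FB VU4 (padF fn fN fL fR) (j - (fl - 448)) 3 : ℕ) : ℝ)) / 2 ^ 80) / 2 + 4 / 10 ^ 12

/-- meaning of the surviving sums -/
def S_CSq : Prop :=
  ∀ (δ : ℝ) (gl gn gN b q : ℕ), 0 < δ → InvG gl gn gN → 1 ≤ q → q ≤ 4 → 1000 ≤ b →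
    (((match q with
      | 1 => Sq WL1 (Mb gl gn gN b) 1
      | 2 => Sq WL2 (Mb gl gn gN b) 2
      | 3 => Sq WL3 (Mb gl gn gN b) 3
      | _ => Sq WL4 (Mb gl gn gN b) 4 : ℕ) : ℝ)) / 2 ^ 80 ≤
      heat (refl (((b : ℝ) - 65536) * δ) (pl δ (AG gl gn gN))) ((8 * q * δ) ^ 2)
        (((b : ℝ) - 65536) * δ)

/-- regridding -/
def S_CRg : Prop :=
  ∀ (δ : ℝ) (D fl fn fN fL fR gl gn gN r fl2 fn2 gl2 gn2 : ℕ)
    (k : ℕ → ℕ → ℕ → ℕ → ℕ → ℕ → ℕ → ℕ → Bool), 0 < δ → InvF fl fn fN fL fR → InvG gl gn gN →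
    rgStep D fl fn fN fL fR gl gn gN r fl2 fn2 gl2 gn2 k = true →
    1 ≤ r ∧ D % r = 0 ∧ ∃ (fN2 fR2 gN2 : ℕ), InvF fl2 fn2 fN2 fL fR2 ∧ InvG gl2 gn2 gN2 ∧
      (∀ y, pl δ (AF fl fn fN fL fR) y ≤ pl (r * δ) (AF fl2 fn2 fN2 fL fR2) y) ∧
      (∀ y, pl (r * δ) (AG gl2 gn2 gN2) y ≤ pl δ (AG gl gn gN) y) ∧
      k (D / r) fl2 fn2 fN2 fR2 gl2 gn2 gN2 = true

/-- one block -/
def S_CBlk : Prop :=
  ∀ (vn D fl fn fN fL fR gl gn gN j0 j1 j2 j3 b h c fn2 : ℕ)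
    (k : ℕ → ℕ → ℕ → ℕ → ℕ → ℕ → ℕ → ℕ → ℕ → Bool), 1024 ≤ vn → D ∣ 256 → 0 < D →
    InvF fl fn fN fL fR → InvG gl gn gN →
    blkStep vn D fl fn fN fL fR gl gn gN j0 j1 j2 j3 b h c fn2 k = true →
    ∃ (vn2 fl2 fN2 fL2 fR2 gN2 : ℕ), 1024 ≤ vn2 ∧ InvF fl2 fn2 fN2 fL2 fR2 ∧ InvG b h gN2 ∧
      BlockOK ((vn : ℝ) / 1024) ((vn2 : ℝ) / 1024) (pl (1 / D) (AF fl fn fN fL fR))
        (pl (1 / D) (AF fl2 fn2 fN2 fL2 fR2)) (pl (1 / D) (AG gl gn gN))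
        (pl (1 / D) (AG b h gN2)) ∧
      k vn2 fl2 fn2 fN2 fL2 fR2 b h gN2 = true

/-- the whole run -/
def S_CRun : Prop :=
  ∀ (l : List Hint) (vn D fl fn fN fL fR gl gn gN : ℕ), 1024 ≤ vn → D ∣ 256 → 0 < D →
    InvF fl fn fN fL fR → InvG gl gn gN →
    AN ((vn : ℝ) / 1024) (pl (1 / D) (AF fl fn fN fL fR)) →
    AS ((vn : ℝ) / 1024) (pl (1 / D) (AG gl gn gN)) →
    run l vn D fl fn fN fL fR gl gn gN = true →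
    ∃ g : ℝ → ℝ, AS 256 g ∧ 11 / 20 ≤ g (-32)

/-- the warm-up -/
def S_CWarm : Prop :=
  ∀ (k : ℕ → ℕ → ℕ → ℕ → ℕ → ℕ → ℕ → Bool) (l : List WHint), l.length = 64 →
    warm k l 65536 1 (2 ^ 40) 0 65535 1 (2 ^ 40) = true →
    ∃ (fl fn fN fR gl gn gN : ℕ), InvF fl fn fN (2 ^ 40) fR ∧ InvG gl gn gN ∧
      (∀ y, Ph (-y) ≤ pl (1 / 256) (AF fl fn fN (2 ^ 40) fR) y) ∧
      (∀ y, pl (1 / 256) (AG gl gn gN) y ≤ Ph (-y)) ∧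
      k fl fn fN fR gl gn gN = true

end W841.PK.Chk
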