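import Mathlib

/-! Minimum-degree peeling of the planted clique model: definitions.

`G` is a uniform simple graph on `Fin n`, `plant G S` is `G` with a clique planted on `S`.
A rule `ρ` picks, from the current vertex set and the current degrees, a vertex of minimum
degree. `RR S ρ t G` is the vertex set left after `t` removals. -/

set_option autoImplicit false

namespace W841.PK

open Finset
open scoped Classical symmDiff

noncomputable section

variable {n : ℕ}

/-! ### The algorithm -/

/-- the graph `G` with a clique planted on `S` -/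
def plant (G : SimpleGraph (Fin n)) (S : Finset (Fin n)) : SimpleGraph (Fin n) where
  Adj a b := a ≠ b ∧ (G.Adj a b ∨ (a ∈ S ∧ b ∈ S))
  symm := ⟨by
    intro a b h
    exact ⟨h.1.symm, h.2.elim (fun h => Or.inl h.symm) (fun h => Or.inr ⟨h.2, h.1⟩)⟩⟩
  loopless := ⟨fun _ h => h.1 rfl⟩

/-- degree of `a` inside the vertex set `R` (zero when `a` is not in `R`) -/
def dg (H : SimpleGraph (Fin n)) (R : Finset (Fin n)) (a : Fin n) : ℕ :=
  if a ∈ R then (R.filter (fun b => H.Adj a b)).card else 0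

/-- a tie-breaking rule: it sees the current vertex set and the current degrees -/
abbrev Rule (n : ℕ) : Type := Finset (Fin n) → (Fin n → ℕ) → Fin n

/-- the rule picks a vertex of minimum degree -/
def IsRule (ρ : Rule n) : Prop :=
  ∀ (R : Finset (Fin n)) (d : Fin n → ℕ), R.Nonempty → ρ R d ∈ R ∧ ∀ a ∈ R, d (ρ R d) ≤ d a

/-- the vertex set after `t` removals -/
def Rs (ρ : Rule n) (H : SimpleGraph (Fin n)) : ℕ → Finset (Fin n)
  | 0 => univ
  | t + 1 => (Rs ρ H t).erase (ρ (Rs ρ H t) (dg H (Rs ρ H t)))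

/-- `R` is a clique of `H` -/
def IsCl (H : SimpleGraph (Fin n)) (R : Finset (Fin n)) : Prop :=
  ∀ a ∈ R, ∀ b ∈ R, a ≠ b → H.Adj a b

/-- peeling `H` by the rule `ρ`, the first clique reached contains a vertex of `S` -/
def Succ (ρ : Rule n) (H : SimpleGraph (Fin n)) (S : Finset (Fin n)) : Prop :=
  ∃ t, IsCl H (Rs ρ H t) ∧ (∀ i < t, ¬ IsCl H (Rs ρ H i)) ∧ ∃ v ∈ Rs ρ H t, v ∈ S

/-! ### The process in the planted model -/

variable (S : Finset (Fin n)) (ρ : Rule n) (t : ℕ) (G : SimpleGraph (Fin n))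

/-- the vertices left after `t` removals -/
def RR : Finset (Fin n) := Rs ρ (plant G S) t

/-- the vertex removed at step `t` -/
def ww : Fin n := ρ (RR S ρ t G) (dg (plant G S) (RR S ρ t G))

/-- non-planted vertices left -/
def NN : Finset (Fin n) := RR S ρ t G \ S

/-- planted vertices left -/
def SS : Finset (Fin n) := RR S ρ t G ∩ S

/-- number of non-planted vertices left -/
def rr : ℕ := (NN S ρ t G).card

/-- number of planted vertices left -/
def ss : ℕ := (SS S ρ t G).card

/-- centred edge indicator of `G` -/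
def ee (G : SimpleGraph (Fin n)) (a b : Fin n) : ℝ :=
  if a = b then 0 else if G.Adj a b then 1 else -1

/-- centred degree of `a` into the remaining vertices -/
def Xt (a : Fin n) : ℝ := ∑ b ∈ RR S ρ t G, ee G a b

/-- centred degree of `a` into the remaining non-planted vertices -/
def Xn (a : Fin n) : ℝ := ∑ b ∈ NN S ρ t G, ee G a b

/-- the tracked centred degree: for planted `a` it is `Xn`, for non-planted `a` it is `Xn` plus
the centred degree into the whole planted set (removed planted vertices included) -/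
def Xs (a : Fin n) : ℝ :=
  if a ∈ S then Xn S ρ t G a else Xn S ρ t G a + ∑ b ∈ S, ee G a b

/-- average of `Xt` over the non-planted vertices left -/
def Xb : ℝ := (∑ a ∈ NN S ρ t G, Xt S ρ t G a) / (rr S ρ t G : ℝ)

/-- the compensator -/
def cc (S : Finset (Fin n)) (ρ : Rule n) : ℕ → SimpleGraph (Fin n) → ℝ
  | 0, _ => 0
  | t + 1, G => cc S ρ t G + if ww S ρ t G ∈ S then 0 else
      √(n : ℝ) * (Xt S ρ t G (ww S ρ t G) - Xb S ρ t G) /
        ((rr S ρ t G : ℝ) * ((rr S ρ t G : ℝ) - 1))

/-- rescaled position of vertex `a` at time `t` -/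
def zz (a : Fin n) : ℝ := √(n : ℝ) / (rr S ρ t G : ℝ) * Xs S ρ t G a + cc S ρ t G

/-- the step size when `r` non-planted vertices are left -/
def hh (n r : ℕ) : ℝ := √(n : ℝ) / ((r : ℝ) - 1)

/-- predicted value of `ee G a (ww t)` -/
def mu (a : Fin n) : ℝ :=
  (Xs S ρ t G a + Xt S ρ t G (ww S ρ t G) - Xb S ρ t G) / (rr S ρ t G : ℝ)

/-- two graphs have the same history up to time `t` -/
def SameHist (G G' : SimpleGraph (Fin n)) : Prop :=
  ∀ i ≤ t, RR S ρ i G = RR S ρ i G' ∧
    dg (plant G S) (RR S ρ i G) = dg (plant G' S) (RR S ρ i G')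

/-- `f` depends only on the history up to time `t` -/
def Meas {α : Type} (f : SimpleGraph (Fin n) → α) : Prop :=
  ∀ G G', SameHist S ρ t G G' → f G = f G'

/-! ### Expectation and probability for the uniform graph -/

/-- expectation over the uniform graph -/
def Ex (f : SimpleGraph (Fin n) → ℝ) : ℝ :=
  (∑ G, f G) / (Fintype.card (SimpleGraph (Fin n)) : ℝ)

/-- probability over the uniform graph -/
def Pr (E : SimpleGraph (Fin n) → Prop) : ℝ := Ex (fun G => if E G then 1 else 0)

/-- with high probability, uniformly in the planted set (of size `⌊√n⌋`) and in the rule -/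
def Whp (P : ∀ n : ℕ, Finset (Fin n) → Rule n → SimpleGraph (Fin n) → Prop) : Prop :=
  ∀ ε : ℝ, 0 < ε → ∃ n0 : ℕ, ∀ n ≥ n0, ∀ (S : Finset (Fin n)) (ρ : Rule n),
    S.card = Nat.sqrt n → IsRule ρ → Pr (fun G => ¬ P n S ρ G) ≤ ε

/-- number of non-planted vertices at time `v ≥ 1` -/
def rv (n : ℕ) (v : ℝ) : ℕ := min ⌊(n : ℝ) / v⌋₊ (n - Nat.sqrt n)

/-! ### Gaussian functions -/

/-- standard Gaussian density -/
def gd (x : ℝ) : ℝ := Real.exp (-x ^ 2 / 2) / √(2 * Real.pi)

/-- standard Gaussian distribution function -/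
def Ph (x : ℝ) : ℝ := ∫ u in Set.Iic x, gd u

/-- the heat flow: `heat f θ y = E f (y + √θ Z)` -/
def heat (f : ℝ → ℝ) (θ : ℝ) (y : ℝ) : ℝ := ∫ x, f (y + √θ * x) * gd x

/-- even reflection about `B` of the part of `g` above `B` -/
def refl (B : ℝ) (g : ℝ → ℝ) (y : ℝ) : ℝ := g (B + |y - B|)

/-- the functions used as tail bounds -/
def Nice (F : ℝ → ℝ) : Prop :=
  Antitone F ∧ (∀ y, 0 ≤ F y ∧ F y ≤ 1) ∧ ∃ L : ℝ, ∀ x y, |F x - F y| ≤ L * |x - y|

/-- `F` bounds the tail of the non-planted positions at time `v` -/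
def AN (v : ℝ) (F : ℝ → ℝ) : Prop :=
  ∀ y ε : ℝ, 0 < ε → Whp (fun n S ρ G => ∀ t, rr S ρ t G = rv n v →
    (((NN S ρ t G).filter (fun a => y ≤ zz S ρ t G a)).card : ℝ) ≤ (F y + ε) * n)

/-- `g` is a lower bound for the tail of the planted positions at time `v` -/
def AS (v : ℝ) (g : ℝ → ℝ) : Prop :=
  ∀ y ε : ℝ, 0 < ε → Whp (fun n S ρ G => ∀ t, rr S ρ t G = rv n v →
    (g y - ε) * √(n : ℝ) ≤ (((SS S ρ t G).filter (fun a => y ≤ zz S ρ t G a)).card : ℝ))

end

end W841.PK
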