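import Pool.Agent.W841.PK.Rand

/-! Uniformly random tie-breaking is a mixture of deterministic rules. -/

set_option autoImplicit false

namespace W841.PK

open Finset
open scoped Classical

noncomputable section

variable {n : ℕ}

/-- the minimisers of `d` on `R` -/
def MM (R : Finset (Fin n)) (d : Fin n → ℕ) : Finset (Fin n) :=
  R.filter (fun w => ∀ a ∈ R, d w ≤ d a)

/-- the set from which the choice with index `p` is made -/
def Cs (p : Finset (Fin n) × Finset (Fin n)) : Finset (Fin n) := if p.2.Nonempty then p.2 else univ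

theorem Cs_of {p : Finset (Fin n) × Finset (Fin n)} (h : p.2.Nonempty) : Cs p = p.2 := if_pos h

/-- all systems of choices -/
abbrev Om (n : ℕ) : Type := (p : Finset (Fin n) × Finset (Fin n)) → {x : Fin n // x ∈ Cs p}

/-- the deterministic rule of a system of choices -/
def rl (ω : Om n) : Rule n := fun R d => (ω (R, MM R d)).1

theorem MM_nonempty (R : Finset (Fin n)) (d : Fin n → ℕ) (h : R.Nonempty) : (MM R d).Nonempty := by
  obtain ⟨w, hw, hm⟩ := exists_min_image R d h
  exact ⟨w, mem_filter.2 ⟨hw, hm⟩⟩

theorem rl_rule (ω : Om n) : IsRule (rl ω) := by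
  intro R d hR
  have hs : Cs (R, MM R d) ⊆ MM R d := (Cs_of (p := (R, MM R d)) (MM_nonempty R d hR)).subset
  have h : (ω (R, MM R d)).1 ∈ MM R d := hs (ω (R, MM R d)).2
  exact ⟨(mem_filter.1 h).1, (mem_filter.1 h).2⟩

/-- deterministic run with fuel -/
def dsp (H : SimpleGraph (Fin n)) (S : Finset (Fin n)) (ρ : Rule n) : ℕ → Finset (Fin n) → ℝ
  | 0, _ => 0
  | t + 1, R =>
    if IsCl H R then (if ∃ v ∈ R, v ∈ S then 1 else 0)
    else dsp H S ρ t (R.erase (ρ R (dg H R)))

theorem dsp_update (H : SimpleGraph (Fin n)) (S : Finset (Fin n)) (ω : Om n)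
    (p : Finset (Fin n) × Finset (Fin n)) (x : {x : Fin n // x ∈ Cs p}) (t : ℕ) :
    ∀ R : Finset (Fin n), ¬ p.1 ⊆ R →
      dsp H S (rl (Function.update ω p x)) t R = dsp H S (rl ω) t R := by
  induction t with
  | zero => intro R _; rfl
  | succ t ih =>
    intro R hR
    have hne : (R, MM R (dg H R)) ≠ p := by
      intro e; apply hR; rw [← e]
    have hv : rl (Function.update ω p x) R (dg H R) = rl ω R (dg H R) := by
      unfold rl; rw [Function.update_of_ne hne]
    rw [dsp, dsp, hv]
    split_ifs
    · rfl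
    · rfl
    · exact ih _ fun h => hR (h.trans (erase_subset _ _))

theorem avg_update (p : Finset (Fin n) × Finset (Fin n)) (F : Om n → ℝ) :
    ∑ ω : Om n, ∑ x : {x : Fin n // x ∈ Cs p}, F (Function.update ω p x) =
      (Fintype.card {x : Fin n // x ∈ Cs p} : ℝ) * ∑ ω : Om n, F ω := by
  rw [← sum_product' univ univ (fun ω x => F (Function.update ω p x))]
  have : ∑ z ∈ (univ : Finset (Om n)) ×ˢ (univ : Finset {x : Fin n // x ∈ Cs p}),
      F (Function.update z.1 p z.2) =
      ∑ z ∈ (univ : Finset (Om n)) ×ˢ (univ : Finset {x : Fin n // x ∈ Cs p}), F z.1 := by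
    refine sum_nbij' (fun z => (Function.update z.1 p z.2, z.1 p))
      (fun z => (Function.update z.1 p z.2, z.1 p)) ?_ ?_ ?_ ?_ ?_
    · intro z _; simp
    · intro z _; simp
    · intro z _; simp
    · intro z _; simp
    · intro z _; rfl
  rw [this, sum_product]
  simp only [sum_const, card_univ, nsmul_eq_mul]
  rw [mul_sum]

theorem sum_dsp (H : SimpleGraph (Fin n)) (S : Finset (Fin n)) (t : ℕ) :
    ∀ R : Finset (Fin n), ∑ ω : Om n, dsp H S (rl ω) t R =
      (Fintype.card (Om n) : ℝ) * rsp H S t R := by
  induction t with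
  | zero => intro R; simp [dsp, rsp]
  | succ t ih =>
    intro R
    by_cases hc : IsCl H R
    · simp only [dsp, rsp, hc, if_true, sum_const, card_univ, nsmul_eq_mul]
    · have hR : R.Nonempty := by
        by_contra h
        rw [not_nonempty_iff_eq_empty] at h
        subst h
        exact hc fun a ha => absurd ha (notMem_empty a)
      simp only [dsp, rsp, hc, if_false]
      set p : Finset (Fin n) × Finset (Fin n) := (R, MM R (dg H R)) with hp
      have hM : MM R (dg H R) = minv H R := rfl
      have hne : (minv H R).Nonempty := MM_nonempty R _ hR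
      have hCs : Cs p = minv H R := Cs_of (MM_nonempty R _ hR)
      have hcard : (Fintype.card {x : Fin n // x ∈ Cs p} : ℝ) = ((minv H R).card : ℝ) := by
        rw [Fintype.card_coe, hCs]
      have hpos : (0 : ℝ) < ((minv H R).card : ℝ) := by exact_mod_cast hne.card_pos
      have h1 := avg_update p (fun ω => dsp H S (rl ω) t (R.erase (rl ω R (dg H R))))
      have h2 : ∀ (ω : Om n) (x : {x : Fin n // x ∈ Cs p}),
          dsp H S (rl (Function.update ω p x)) t
            (R.erase (rl (Function.update ω p x) R (dg H R))) =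
          dsp H S (rl ω) t (R.erase x.1) := by
        intro ω x
        have e : rl (Function.update ω p x) R (dg H R) = x.1 := by
          unfold rl
          rw [← hp, Function.update_self]
        rw [e]
        apply dsp_update
        intro hsub
        have hx : x.1 ∈ R := by
          have hx2 : x.1 ∈ minv H R := hCs ▸ x.2
          exact (mem_filter.1 hx2).1
        exact notMem_erase x.1 R (hsub hx)
      simp only [h2] at h1
      rw [sum_comm] at h1
      simp only [ih] at h1
      rw [← mul_sum, hcard] at h1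
      have h3 : ∑ x : {x : Fin n // x ∈ Cs p}, rsp H S t (R.erase x.1) =
          ∑ w ∈ minv H R, rsp H S t (R.erase w) := by
        rw [← hCs]
        exact sum_coe_sort (Cs p) (fun w => rsp H S t (R.erase w))
      rw [h3] at h1
      rw [mul_div_assoc', eq_div_iff hpos.ne', h1]
      ring

theorem card_Rs (ρ : Rule n) (hρ : IsRule ρ) (H : SimpleGraph (Fin n)) (i : ℕ) (hi : i ≤ n) :
    (Rs ρ H i).card = n - i := by
  induction i with
  | zero => simp [Rs]
  | succ i ih =>
    have h := ih (by omega)
    have hne : (Rs ρ H i).Nonempty := by rw [← card_pos]; omega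
    rw [Rs, card_erase_of_mem (hρ _ _ hne).1, h]; omega

theorem dsp_eq (ρ : Rule n) (hρ : IsRule ρ) (H : SimpleGraph (Fin n)) (S : Finset (Fin n)) (t : ℕ) :
    ∀ i, i + t = n → 1 ≤ t → (∀ j < i, ¬ IsCl H (Rs ρ H j)) →
      dsp H S ρ t (Rs ρ H i) = if Succ ρ H S then 1 else 0 := by
  have key : ∀ i, IsCl H (Rs ρ H i) → (∀ j < i, ¬ IsCl H (Rs ρ H j)) →
      ((∃ v ∈ Rs ρ H i, v ∈ S) ↔ Succ ρ H S) := by
    intro i h1 h2
    constructor
    · intro h; exact ⟨i, h1, h2, h⟩
    · rintro ⟨j, a, b, c⟩
      have : i = j := by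
        rcases lt_trichotomy i j with h | h | h
        · exact absurd h1 (b i h)
        · exact h
        · exact absurd a (h2 j h)
      subst this; exact c
  induction t with
  | zero => intro i _ h; omega
  | succ t ih =>
    intro i hi _ hj
    by_cases hc : IsCl H (Rs ρ H i)
    · rw [dsp, if_pos hc]
      simp only [key i hc hj]
    · rw [dsp, if_neg hc]
      have ht : 1 ≤ t := by
        by_contra h
        apply hc
        have hcard := card_Rs ρ hρ H i (by omega)
        have : (Rs ρ H i).card ≤ 1 := by omega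
        intro a ha b hb hab
        exact absurd (card_le_one.1 this a ha b hb) hab
      exact ih (i + 1) (by omega) ht fun j hj' => by
        rcases Nat.lt_succ_iff_lt_or_eq.1 hj' with h | h
        · exact hj j h
        · subst h; exact hc

theorem rand : S_Rand := by
  intro n S c hn hc
  have : Nonempty (Fin n) := ⟨⟨0, by omega⟩⟩
  have hOm : (0 : ℝ) < (Fintype.card (Om n) : ℝ) := by
    have : Nonempty (Om n) := ⟨fun p => by
      have hne : (Cs p).Nonempty := by
        unfold Cs; split_ifs with h
        · exact h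
        · exact univ_nonempty
      exact ⟨hne.choose, hne.choose_spec⟩⟩
    exact_mod_cast Fintype.card_pos
  have h1 : ∀ G : SimpleGraph (Fin n), rsp (plant G S) S n univ =
      (∑ ω : Om n, (if Succ (rl ω) (plant G S) S then (1 : ℝ) else 0)) /
        (Fintype.card (Om n) : ℝ) := by
    intro G
    rw [eq_div_iff hOm.ne', mul_comm, ← sum_dsp]
    refine sum_congr rfl fun ω _ => ?_
    have := dsp_eq (rl ω) (rl_rule ω) (plant G S) S n 0 (by omega) hn (by omega)
    exact this
  rw [Ex_congr h1]
  have h2 : Ex (fun G : SimpleGraph (Fin n) =>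
      (∑ ω : Om n, (if Succ (rl ω) (plant G S) S then (1 : ℝ) else 0)) /
        (Fintype.card (Om n) : ℝ)) =
      (∑ ω : Om n, Pr (fun G => Succ (rl ω) (plant G S) S)) / (Fintype.card (Om n) : ℝ) := by
    have : ∀ G : SimpleGraph (Fin n),
        (∑ ω : Om n, (if Succ (rl ω) (plant G S) S then (1 : ℝ) else 0)) /
        (Fintype.card (Om n) : ℝ) =
        (∑ ω : Om n, (if Succ (rl ω) (plant G S) S then (1 : ℝ) else 0)) *
        (Fintype.card (Om n) : ℝ)⁻¹ := fun G => div_eq_mul_inv _ _
    rw [Ex_congr this, Ex_mul_right, div_eq_mul_inv, Ex_sum]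
    rfl
  rw [h2, le_div_iff₀ hOm]
  calc c * (Fintype.card (Om n) : ℝ) = ∑ _ω : Om n, c := by
        rw [sum_const, card_univ, nsmul_eq_mul, mul_comm]
    _ ≤ _ := sum_le_sum fun ω _ => hc (rl ω) (rl_rule ω)

end

end W841.PK
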