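import Pool.Agent.W841.PK.Asm
import Pool.Agent.W841.PK.RandPf
import Pool.Agent.W932.PK.StepG
import Pool.Agent.W577.PK.CSq

/-!
Project PK: the main theorem for deterministic degree-based tie-breaking rules.
-/

set_option autoImplicit false

namespace W841.PK

open Chk

theorem b_stepg : S_StepG :=
  Pool.Agent.W932.PK.StepG.stepg dig digmul digrnd (Pool.Agent.W52.PK.DigRev.digrev dig) b_tabk
    a_pl a_semlow

theorem b_csq : S_CSq :=
  Pool.Agent.W577.PK.csq dig digmul b_tabc Pool.Agent.W52.PK.TabW.tabw a_pl a_semp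

theorem main : ∃ n0 : ℕ, ∀ n ≥ n0,
    ∀ (S : Finset (Fin n)) (ρ : Rule n), S.card = Nat.sqrt n → IsRule ρ →
    1 / 2 ≤ Pr (fun G => Succ ρ (plant G S) S) := main_gq b_stepg b_csq

end W841.PK
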