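import Pool.Agent.W305.PK.Basic
import Pool.Agent.W305.PK.ZStep
import Pool.Agent.W305.PK.Meas
import Pool.Agent.W358.PK.Swap
import Pool.Agent.W358.PK.SW
import Pool.Agent.W340.PK.Neg
import Pool.Agent.W782.PK.Hoeff
import Pool.Agent.W925.PK.Prc
import Pool.Agent.W563.PK.ML
import Pool.Agent.W349.PK.SumX
import Pool.Agent.W397.PK.DYid
import Pool.Agent.W240.PK.DYcnt
import Pool.Agent.W397.PK.T2
import Pool.Agent.W340.PK.T3
import Pool.Agent.W240.PK.T4
import Pool.Agent.W782.PK.Start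
import Pool.Agent.W597.PK.Drift
import Pool.Agent.W925.PK.YSum
import Pool.Agent.W358.PK.FLrem
import Pool.Agent.W925.PK.FL
import Pool.Agent.W563.PK.Gauss
import Pool.Agent.W320.PK.GStep
import Pool.Agent.W320.PK.HeatC
import Pool.Agent.W440.PK.Net
import Pool.Agent.W577.PK.FlowN
import Pool.Agent.W577.PK.FlowS
import Pool.Agent.W440.PK.TStep
import Pool.Agent.W782.PK.PStep
import Pool.Agent.W362.PK.CNT
import Pool.Agent.W240.PK.Init
import Pool.Agent.W135.PK.Block
import Pool.Agent.W135.PK.P2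
import Pool.Agent.W305.PK.Kill
import Pool.Agent.W305.PK.End
import Pool.Agent.W932.PK.PL
import Pool.Agent.W340.PK.Regrid
import Pool.Agent.W932.PK.Kap
import Pool.Agent.W440.PK.Cm
import Pool.Agent.W440.PK.Tail7
import Pool.Agent.W932.PK.Grid
import Pool.Agent.W135.PK.InterpUp
import Pool.Agent.W135.PK.InterpLow
import Pool.Agent.W440.PK.Sem
import Pool.Agent.W925.PK.Cells
import Pool.Agent.W440.PK.GConv
import Pool.Agent.W841.PK.ChkS
import Pool.Agent.W841.PK.ChkRun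
import Pool.Agent.W841.PK.Warm

/-! Assembly of the project: minimum-degree peeling finds the planted clique of size `⌊√n⌋`. -/

set_option autoImplicit false

namespace W841.PK

open Finset

theorem a_mp : S_MeasP := W305.PK.measp
theorem a_basic : S_Basic := W305.PK.basic
theorem a_pr : S_PR := Pool.Agent.W782.PK.pr Pool.Agent.W782.PK.hoeff
theorem a_prc : S_PRC := Pool.Agent.W925.PK.prc
theorem a_sw1 : S_SW1 := W358.PK.sw1 W358.PK.swap
theorem a_sw2 : S_SW2 := W358.PK.sw2 W358.PK.swap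
theorem a_cnt : S_DYcnt := Pool.Agent.W240.PK.dycnt a_basic a_prc
theorem a_dy : S_DY := Pool.Agent.W782.PK.dy Pool.Agent.W397.PK.dyid
  (Pool.Agent.W397.PK.t2 a_basic a_prc a_cnt) (Pool.Agent.W340.PK.T3.t3 a_basic a_prc a_cnt)
  (Pool.Agent.W240.PK.t4 a_basic a_prc a_cnt)
theorem a_drift : S_Drift := Pool.Agent.W597.PK.drift a_basic a_mp W358.PK.swap a_sw1 a_sw2 a_dy
theorem a_sumx : S_SumX := W349.PK.sumx a_basic a_prc
theorem a_ysum : S_YSum := Pool.Agent.W925.PK.ysum a_pr a_sumx Pool.Agent.W563.PK.ml a_drift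
theorem a_fl : S_FL := Pool.Agent.W925.PK.fl a_basic a_mp a_pr a_ysum
  (W358.PK.flrem a_basic (W305.PK.zstep a_basic) a_prc a_sumx)
theorem a_few : S_Few := Pool.Agent.W782.PK.few a_pr a_prc
theorem a_gauss : S_Gauss := Pool.Agent.W563.PK.gauss
theorem a_gstep : S_GStep := W320.PK.gstep a_gauss
theorem a_heatc : S_HeatC := W320.PK.heatc a_gauss
theorem a_flown : S_FlowN := Pool.Agent.W577.PK.flown a_basic a_fl a_mp a_gauss a_gstep a_heatc
  (Pool.Agent.W782.PK.startn (Pool.Agent.W440.PK.netup a_gauss))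
theorem a_flows : S_FlowS := Pool.Agent.W577.PK.flows a_basic a_fl a_mp a_gauss a_gstep a_heatc
  (Pool.Agent.W782.PK.starts (Pool.Agent.W440.PK.netlow a_gauss))
theorem a_tstep : S_TStep := Pool.Agent.W440.PK.tstep a_basic a_gauss a_heatc a_flown
theorem a_pstep : S_PStep := Pool.Agent.W782.PK.pstep a_basic a_gauss a_heatc a_flows a_few
theorem a_init : S_Init := Pool.Agent.W240.PK.init a_basic a_gauss a_few
  (Pool.Agent.W362.PK.CNT.cnt a_gauss a_gstep)
theorem a_block : S_Block := W135.PK.block a_tstep a_pstep a_heatc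
theorem a_p2 : S_P2 := W135.PK.p2 a_basic a_mp
  (Pool.Agent.W340.PK.negdrift a_basic a_mp W358.PK.swap a_sw1)
theorem a_end : S_End := W305.PK.endthm a_basic a_pr
  (Pool.Agent.W782.PK.se Pool.Agent.W782.PK.hoeff) (Pool.Agent.W782.PK.he Pool.Agent.W782.PK.hoeff)
  (W305.PK.killthr a_basic) (W305.PK.endkill a_basic) a_p2

theorem a_pl : S_Pl := Pool.Agent.W932.PK.PL.plthm
theorem a_kap : S_Kap := Pool.Agent.W932.PK.Kap.kapthm a_gauss
theorem a_cm : S_Cm := Pool.Agent.W440.PK.cmthm a_gauss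
theorem a_tail : S_Tail7 := Pool.Agent.W440.PK.tail7 a_gauss
theorem a_semup : S_SemUp := Pool.Agent.W440.PK.semup a_pl
  (Pool.Agent.W932.PK.Grid.gridup a_pl a_gauss a_tail) (W135.PK.interpup a_pl a_gauss)
theorem a_semlow : S_SemLow := Pool.Agent.W440.PK.semlow a_pl
  (Pool.Agent.W932.PK.Grid.gridlow a_pl a_gauss) (W135.PK.interplow a_pl a_gauss a_tail)
theorem a_sembar : S_SemBar := Pool.Agent.W925.PK.sembar a_gauss a_tail
theorem a_semp : S_SemP := Pool.Agent.W925.PK.semp a_gauss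
theorem a_gconv : S_GConv := Pool.Agent.W440.PK.gconv a_gauss
theorem a_regrid : S_Regrid := Pool.Agent.W340.PK.Regrid.regrid a_pl

/-- the certificate gives the planted tail bound at time 256 -/
theorem at256 (hw : Chk.S_CWarm) (hr : Chk.S_CRun) : ∃ g : ℝ → ℝ, AS 256 g ∧ 11 / 20 ≤ g (-32) := by
  have hc := Chk.chkAll_true
  rw [Chk.chkAll, Bool.and_eq_true] at hc
  obtain ⟨h1, h2⟩ := hc
  obtain ⟨fl, fn, fN, fR, gl, gn, gN, F, G, hF, hG, hrun⟩ :=
    hw _ _ (Nat.eq_of_beq_eq_true h1) h2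
  obtain ⟨i1, i2⟩ := a_init
  have e1 : ((1024 : ℕ) : ℝ) / 1024 = 1 := by norm_num
  have e2 : (1 : ℝ) / ((256 : ℕ) : ℝ) = 1 / 256 := by norm_num
  refine hr Chk.hints 1024 256 fl fn fN (2 ^ 40) fR gl gn gN le_rfl (by norm_num) (by norm_num)
    F G ?_ ?_ hrun
  · rw [e1, e2]
    intro y ε hε
    refine (i1 y ε hε).mono 0 ?_
    intro n _ S ρ G' _ _ h t ht
    refine (h t ht).trans ?_
    have := hF y
    have hn : (0 : ℝ) ≤ n := Nat.cast_nonneg n
    exact mul_le_mul_of_nonneg_right (by linarith) hn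
  · rw [e1, e2]
    intro y ε hε
    refine (i2 y ε hε).mono 0 ?_
    intro n _ S ρ G' _ _ h t ht
    refine le_trans ?_ (h t ht)
    have := hG y
    exact mul_le_mul_of_nonneg_right (by linarith) (Real.sqrt_nonneg _)

theorem main_of (hw : Chk.S_CWarm) (hr : Chk.S_CRun) : ∃ n0 : ℕ, ∀ n ≥ n0,
    ∀ (S : Finset (Fin n)) (ρ : Rule n), S.card = Nat.sqrt n → IsRule ρ →
    1 / 2 ≤ Pr (fun G => Succ ρ (plant G S) S) := by
  obtain ⟨g, h1, h2⟩ := at256 hw hr
  exact a_end g h1 h2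

end W841.PK
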