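import Pool.Agent.W841.PK.Api

/-! Uniformly random tie-breaking. -/

set_option autoImplicit false

namespace W841.PK

open Finset
open scoped Classical

noncomputable section

variable {n : ℕ}

/-- the vertices of minimum degree of `H` restricted to `R` -/
def minv (H : SimpleGraph (Fin n)) (R : Finset (Fin n)) : Finset (Fin n) :=
  R.filter (fun w => ∀ a ∈ R, dg H R w ≤ dg H R a)

/-- the probability that peeling started from the vertex set `R` (at most `t` tests), removing each
time a uniformly random vertex of minimum degree, stops at a clique that meets `S` -/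
def rsp (H : SimpleGraph (Fin n)) (S : Finset (Fin n)) : ℕ → Finset (Fin n) → ℝ
  | 0, _ => 0
  | t + 1, R =>
    if IsCl H R then (if ∃ v ∈ R, v ∈ S then 1 else 0)
    else (∑ w ∈ minv H R, rsp H S t (R.erase w)) / ((minv H R).card : ℝ)

/-- bounds for all deterministic rules pass to random tie-breaking -/
def S_Rand : Prop :=
  ∀ (n : ℕ) (S : Finset (Fin n)) (c : ℝ), 1 ≤ n →
    (∀ ρ : Rule n, IsRule ρ → c ≤ Pr (fun G => Succ ρ (plant G S) S)) →
    c ≤ Ex (fun G => rsp (plant G S) S n univ)

end

end W841.PK
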