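import Pool.Agent.W841.PK.Defs

/-! Statements of the lemmas of the project (each `S_*` is a Prop proved in its own file). -/

set_option autoImplicit false

namespace W841.PK

open Finset
open scoped Classical symmDiff

noncomputable section

/-! ### A. The process -/

/-- basic structure of the removal process -/
def S_Basic : Prop :=
  ∀ (n : ℕ) (S : Finset (Fin n)) (ρ : Rule n) (t : ℕ) (G : SimpleGraph (Fin n)), IsRule ρ →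
    (t ≤ n → (RR S ρ t G).card = n - t) ∧
    (t < n → ww S ρ t G ∈ RR S ρ t G) ∧
    (t < n → ww S ρ t G ∉ S →
      ww S ρ t G ∈ NN S ρ t G ∧
      NN S ρ (t + 1) G = (NN S ρ t G).erase (ww S ρ t G) ∧
      rr S ρ (t + 1) G + 1 = rr S ρ t G ∧
      SS S ρ (t + 1) G = SS S ρ t G ∧
      (∀ a ∈ NN S ρ t G, Xt S ρ t G (ww S ρ t G) ≤ Xt S ρ t G a) ∧
      Xt S ρ t G (ww S ρ t G) ≤ Xb S ρ t G) ∧
    (t < n → ww S ρ t G ∈ S →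
      ww S ρ t G ∈ SS S ρ t G ∧
      SS S ρ (t + 1) G = (SS S ρ t G).erase (ww S ρ t G) ∧
      NN S ρ (t + 1) G = NN S ρ t G ∧
      rr S ρ (t + 1) G = rr S ρ t G ∧
      (∀ a ∈ NN S ρ t G,
        Xs S ρ t G (ww S ρ t G) + (ss S ρ t G : ℝ) - 1 ≤ Xt S ρ t G a)) ∧
    cc S ρ (t + 1) G ≤ cc S ρ t G

/-- evolution of the positions -/
def S_ZStep : Prop :=
  ∀ (n : ℕ) (S : Finset (Fin n)) (ρ : Rule n) (t : ℕ) (G : SimpleGraph (Fin n)), IsRule ρ →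
    t < n →
    (ww S ρ t G ∉ S → 2 ≤ rr S ρ t G → ∀ a ∈ RR S ρ (t + 1) G,
      zz S ρ (t + 1) G a =
        zz S ρ t G a - hh n (rr S ρ t G) * (ee G a (ww S ρ t G) - mu S ρ t G a)) ∧
    (ww S ρ t G ∈ S → ∀ a, zz S ρ (t + 1) G a = zz S ρ t G a)

/-- what the history determines -/
def S_MeasP : Prop :=
  ∀ (n : ℕ) (S : Finset (Fin n)) (ρ : Rule n) (t : ℕ) (G G' : SimpleGraph (Fin n)), IsRule ρ →
    SameHist S ρ t G G' →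
    (∀ i ≤ t, SameHist S ρ i G G') ∧
    RR S ρ t G = RR S ρ t G' ∧ ww S ρ t G = ww S ρ t G' ∧ RR S ρ (t + 1) G = RR S ρ (t + 1) G' ∧
    (∀ i < t, ∀ a ∈ RR S ρ (i + 1) G, ¬ (a ∈ S ∧ ww S ρ i G ∈ S) →
      ee G a (ww S ρ i G) = ee G' a (ww S ρ i G)) ∧
    (∀ a ∈ RR S ρ t G, a ∉ S → Xt S ρ t G a = Xt S ρ t G' a) ∧
    (∀ a ∈ RR S ρ t G, Xs S ρ t G a = Xs S ρ t G' a) ∧
    Xb S ρ t G = Xb S ρ t G' ∧ cc S ρ t G = cc S ρ t G' ∧ cc S ρ (t + 1) G = cc S ρ (t + 1) G' ∧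
    (∀ a ∈ RR S ρ t G, zz S ρ t G a = zz S ρ t G' a)

/-! ### B. Switchings -/

/-- switch the alternating 4-cycle `w x w2 y` -/
def swp {n : ℕ} (G : SimpleGraph (Fin n)) (w w2 x y : Fin n) : SimpleGraph (Fin n) :=
  G ∆ SimpleGraph.fromEdgeSet {s(w, x), s(x, w2), s(w2, y), s(y, w)}

variable {n : ℕ} (S : Finset (Fin n)) (ρ : Rule n) (t : ℕ) (G : SimpleGraph (Fin n))

/-- the removed vertex is non-planted (and the process is still running) -/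
def NP : Prop := ww S ρ t G ∉ S ∧ ww S ρ t G ∈ RR S ρ t G

/-- the switching at `w = ww t`, `w2`, `x`, `y` is allowed -/
def SwOK (w2 x y : Fin n) : Prop :=
  NP S ρ t G ∧ w2 ∈ NN S ρ t G ∧ w2 ≠ ww S ρ t G ∧ x ∈ RR S ρ t G ∧ y ∈ RR S ρ t G ∧
    x ≠ ww S ρ t G ∧ x ≠ w2 ∧ y ≠ ww S ρ t G ∧ y ≠ w2 ∧
    G.Adj x (ww S ρ t G) ∧ ¬ G.Adj x w2 ∧ G.Adj y w2 ∧ ¬ G.Adj y (ww S ρ t G)

/-- remaining vertices adjacent to `ww` but not to `w2` -/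
def Aw (w2 : Fin n) : Finset (Fin n) :=
  (RR S ρ t G).filter (fun a => a ≠ ww S ρ t G ∧ a ≠ w2 ∧ G.Adj a (ww S ρ t G) ∧ ¬ G.Adj a w2)

/-- remaining vertices adjacent to `w2` but not to `ww` -/
def Bw (w2 : Fin n) : Finset (Fin n) :=
  (RR S ρ t G).filter (fun a => a ≠ ww S ρ t G ∧ a ≠ w2 ∧ G.Adj a w2 ∧ ¬ G.Adj a (ww S ρ t G))

/-- number of vertices adjacent to exactly one of `ww`, `w2` -/
def Dl (w2 : Fin n) : ℝ := ((Aw S ρ t G w2).card : ℝ) + ((Bw S ρ t G w2).card : ℝ)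

/-- conditional mean of `ee a ww` on the symmetric difference -/
def qh (w2 : Fin n) : ℝ := (Xt S ρ t G (ww S ρ t G) - Xt S ρ t G w2) / (2 * Dl S ρ t G w2)

/-- centred switching statistic with weights `g` -/
def Dd (g : Fin n → ℝ) (w2 : Fin n) : ℝ :=
  ∑ a ∈ Aw S ρ t G w2 ∪ Bw S ρ t G w2, g a * (ee G a (ww S ρ t G) - qh S ρ t G w2)

/-- correlation of the neighbourhoods of `ww` and `w2` -/
def qq (w2 : Fin n) : ℝ := ∑ b ∈ RR S ρ t G, ee G (ww S ρ t G) b * ee G w2 b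

/-- the switchings preserve the history and are reversible -/
def S_Swap : Prop :=
  ∀ (n : ℕ) (S : Finset (Fin n)) (ρ : Rule n) (t : ℕ) (G : SimpleGraph (Fin n))
    (w2 x y : Fin n), SwOK S ρ t G w2 x y →
    SameHist S ρ t G (swp G (ww S ρ t G) w2 x y) ∧
    ww S ρ t (swp G (ww S ρ t G) w2 x y) = ww S ρ t G ∧
    SwOK S ρ t (swp G (ww S ρ t G) w2 x y) w2 y x ∧
    swp (swp G (ww S ρ t G) w2 x y) (ww S ρ t G) w2 y x = G ∧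
    (∀ a b, ee (swp G (ww S ρ t G) w2 x y) a b =
      if s(a, b) ∈ ({s(ww S ρ t G, x), s(x, w2), s(w2, y), s(y, ww S ρ t G)} :
        Set (Sym2 (Fin n))) then - ee G a b else ee G a b)

/-- first switching identity -/
def S_SW1 : Prop :=
  ∀ (n : ℕ) (S : Finset (Fin n)) (ρ : Rule n) (t : ℕ) (K : SimpleGraph (Fin n) → Fin n → ℝ)
    (g : SimpleGraph (Fin n) → Fin n → ℝ),
    (∀ G w2 x y, SwOK S ρ t G w2 x y → K (swp G (ww S ρ t G) w2 x y) w2 = K G w2) →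
    (∀ a, Meas S ρ t (fun G => g G a)) →
    ∑ G, (if NP S ρ t G then ∑ w2 ∈ (NN S ρ t G).erase (ww S ρ t G),
      K G w2 * Dd S ρ t G (g G) w2 else 0) = 0

/-- second switching identity -/
def S_SW2 : Prop :=
  ∀ (n : ℕ) (S : Finset (Fin n)) (ρ : Rule n) (t : ℕ) (K : SimpleGraph (Fin n) → Fin n → ℝ)
    (g : SimpleGraph (Fin n) → Fin n → ℝ),
    (∀ G w2 x y, SwOK S ρ t G w2 x y → K (swp G (ww S ρ t G) w2 x y) w2 = K G w2) →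
    (∀ a, Meas S ρ t (fun G => g G a)) →
    ∑ G, (if NP S ρ t G then ∑ w2 ∈ (NN S ρ t G).erase (ww S ρ t G),
      K G w2 * Dl S ρ t G w2 * Dd S ρ t G (g G) w2 ^ 2 else 0) =
    2 * ∑ G, (if NP S ρ t G then ∑ w2 ∈ (NN S ρ t G).erase (ww S ρ t G),
      K G w2 * ∑ x ∈ Aw S ρ t G w2, ∑ y ∈ Bw S ρ t G w2, (g G x - g G y) ^ 2 else 0)

/-- exact one-sided drift bound for a planted vertex -/
def S_NegDrift : Prop :=
  ∀ (n : ℕ) (S : Finset (Fin n)) (ρ : Rule n) (t : ℕ) (v : Fin n)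
    (φ : SimpleGraph (Fin n) → ℝ), IsRule ρ → v ∈ S → (∀ G, 0 ≤ φ G) → Meas S ρ t φ →
    ∑ G, (if NP S ρ t G ∧ v ∈ RR S ρ t G then
      φ G * ((rr S ρ t G : ℝ) * ee G v (ww S ρ t G) - Xn S ρ t G v) else 0) ≤ 0

/-! ### C. Discrepancy events and the martingale inequality -/

/-- exponential moments of edge sums -/
def S_Hoeff : Prop :=
  ∀ (n : ℕ) (c : Fin n → Fin n → ℝ),
    Ex (fun G : SimpleGraph (Fin n) =>
      Real.exp (∑ a, ∑ b, if a < b then c a b * ee G a b else 0)) ≤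
    Real.exp ((∑ a, ∑ b, if a < b then c a b ^ 2 else 0) / 2)

/-- discrepancy of all pairs of vertex sets -/
def PRev (C : ℝ) (G : SimpleGraph (Fin n)) : Prop :=
  ∀ A B : Finset (Fin n), |∑ a ∈ A, ∑ b ∈ B, ee G a b| ≤
    C * √((A.card : ℝ) * B.card * ((A.card : ℝ) + B.card) * Real.log n)

def S_PR : Prop :=
  ∀ K : ℕ, ∃ C : ℝ, 1 ≤ C ∧ ∃ n0 : ℕ, ∀ n ≥ n0,
    Pr (fun G : SimpleGraph (Fin n) => ¬ PRev C G) ≤ 1 / (n : ℝ) ^ K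

/-- deterministic consequences of `PRev` -/
def S_PRC : Prop :=
  ∀ (n : ℕ) (C : ℝ) (G : SimpleGraph (Fin n)), 2 ≤ n → 1 ≤ C → PRev C G →
    (∀ (α β : Fin n → ℝ) (A B : Finset (Fin n)), (∀ a, |α a| ≤ 1) → (∀ b, |β b| ≤ 1) →
      |∑ a ∈ A, ∑ b ∈ B, α a * β b * ee G a b| ≤
        4 * C * √((A.card : ℝ) * B.card * ((A.card : ℝ) + B.card) * Real.log n)) ∧
    (∀ (β : Fin n → ℝ) (A B : Finset (Fin n)), (∀ b, |β b| ≤ 1) →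
      ∑ a ∈ A, |∑ b ∈ B, β b * ee G a b| ≤
        4 * C * √((A.card : ℝ) * B.card * ((A.card : ℝ) + B.card) * Real.log n)) ∧
    (∀ (β : Fin n → ℝ) (B : Finset (Fin n)), (∀ b, |β b| ≤ 1) →
      ∑ a, (∑ b ∈ B, β b * ee G a b) ^ 2 ≤ 400 * C ^ 2 * (n : ℝ) ^ 2 * Real.log n ^ 2)

/-- maximal inequality for sums with small conditional drift -/
def S_ML : Prop :=
  ∀ (n : ℕ) (S : Finset (Fin n)) (ρ : Rule n) (N : ℕ)
    (Y e1 e2 : ℕ → SimpleGraph (Fin n) → ℝ) (lam : ℝ), 0 < lam →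
    (∀ j < N, Meas S ρ (j + 1) (Y j)) → (∀ j G, 0 ≤ e1 j G) →
    (∀ j < N, ∀ φ : SimpleGraph (Fin n) → ℝ, Meas S ρ j φ →
      |Ex (fun G => φ G * Y j G)| ≤ Ex (fun G => |φ G| * e1 j G)) →
    (∀ j < N, Ex (fun G => Y j G ^ 2) ≤ Ex (e2 j)) →
    lam ^ 2 * Pr (fun G => ∃ t ≤ N, lam < |∑ j ∈ range t, Y j G|) ≤
      ∑ j ∈ range N, (Ex (e2 j) + 2 * lam * Ex (e1 j))

/-- the step is active: a non-planted vertex is removed and at least `n / V0` are left -/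
def Act (V0 : ℝ) : Prop := NP S ρ t G ∧ (n : ℝ) / V0 ≤ (rr S ρ t G : ℝ)

/-- total size of the degrees at removal -/
def S_SumX : Prop :=
  ∀ V0 C : ℝ, 1 ≤ V0 → 1 ≤ C → ∃ K : ℝ, ∃ n0 : ℕ, ∀ n ≥ n0, ∀ (S : Finset (Fin n)) (ρ : Rule n)
    (G : SimpleGraph (Fin n)), S.card = Nat.sqrt n → IsRule ρ → PRev C G →
    ∑ t ∈ range n, (if Act S ρ t G V0 then |Xt S ρ t G (ww S ρ t G)| else 0) ≤
      K * (n : ℝ) * √(n : ℝ) * √(Real.log n)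

/-! ### D. The one-step fluctuation -/

/-- the centred sum over remaining vertices with weights `g` -/
def Yv (g : Fin n → ℝ) : ℝ :=
  ∑ a ∈ (RR S ρ t G).erase (ww S ρ t G), g a * (ee G a (ww S ρ t G) - mu S ρ t G a)

/-- size of the population the weights live on (`b = true`: planted) -/
def uu (b : Bool) (n : ℕ) : ℝ := if b then √(n : ℝ) else (n : ℝ)

/-- the switching statistics approximate `Yv` -/
def S_DY : Prop :=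
  ∀ V0 C : ℝ, 1 ≤ V0 → 1 ≤ C → ∃ K : ℝ, ∃ n0 : ℕ, ∀ n ≥ n0, ∀ (S : Finset (Fin n)) (ρ : Rule n)
    (t : ℕ) (G : SimpleGraph (Fin n)), S.card = Nat.sqrt n → IsRule ρ → PRev C G →
    Act S ρ t G V0 → ∀ (b : Bool) (γ : ℝ) (g : Fin n → ℝ), 0 ≤ γ → (∀ a, |g a| ≤ γ) →
    (∀ a, (if b then a ∉ S else a ∈ S) → g a = 0) →
    |2 / (rr S ρ t G : ℝ) * ∑ w2 ∈ ((NN S ρ t G).erase (ww S ρ t G)).filter
        (fun w2 => |qq S ρ t G w2| ≤ ((RR S ρ t G).card : ℝ) / 4), Dd S ρ t G g w2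
      - Yv S ρ t G g| ≤
    K * γ * uu b n * (n : ℝ) ^ (-(9 / 16) : ℝ) *
      (1 + |Xt S ρ t G (ww S ρ t G)| / √(n : ℝ))

/-- the accumulated fluctuations are negligible -/
def S_YSum : Prop :=
  ∀ V0 ε lam : ℝ, 1 ≤ V0 → 0 < ε → 0 < lam → ∃ n0 : ℕ, ∀ n ≥ n0, ∀ (S : Finset (Fin n))
    (ρ : Rule n), S.card = Nat.sqrt n → IsRule ρ → ∀ (b : Bool) (γ : ℝ)
    (g : ℕ → SimpleGraph (Fin n) → Fin n → ℝ), 0 < γ →
    (∀ t a, Meas S ρ t (fun G => g t G a)) → (∀ t G a, |g t G a| ≤ γ) →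
    (∀ t G a, (if b then a ∉ S else a ∈ S) → g t G a = 0) →
    (∀ t G a, a ∉ RR S ρ t G → g t G a = 0) →
    Pr (fun G => ∃ t ≤ n, lam * γ * √(n : ℝ) * uu b n <
      |∑ j ∈ range t, if Act S ρ j G V0 then Yv S ρ j G (g j G) else 0|) ≤ ε

/-- one step of the sum of a test function over the tracked set `U` -/
def inc (r0 r1 : ℕ) (f : ℕ → ℝ → ℝ) (U : ℕ → SimpleGraph (Fin n) → Finset (Fin n)) (j : ℕ) : ℝ :=
  if NP S ρ j G ∧ r0 < rr S ρ j G ∧ rr S ρ j G ≤ r1 then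
    ∑ a ∈ (U j G).erase (ww S ρ j G),
      (f (rr S ρ j G - 1) (zz S ρ (j + 1) G a) - f (rr S ρ j G) (zz S ρ j G a))
  else 0

/-- the fluid limit lemma: sums of a space-time test function which nearly solves the backward
heat equation are nearly conserved -/
def S_FL : Prop :=
  ∀ V0 C0 ε : ℝ, 1 ≤ V0 → 0 < C0 → 0 < ε → ∃ n0 : ℕ, ∀ n ≥ n0, ∀ (S : Finset (Fin n))
    (ρ : Rule n), S.card = Nat.sqrt n → IsRule ρ → ∀ (b : Bool) (r0 r1 : ℕ)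
    (f f' : ℕ → ℝ → ℝ) (U : ℕ → SimpleGraph (Fin n) → Finset (Fin n)),
    (n : ℝ) / V0 ≤ r0 →
    (∀ r, r0 ≤ r → r ≤ r1 → ∀ z, HasDerivAt (f r) (f' r z) z) →
    (∀ r, r0 ≤ r → r ≤ r1 → ∀ z, |f' r z| ≤ C0) →
    (∀ r, r0 ≤ r → r ≤ r1 → ∀ z z', |f' r z - f' r z'| ≤ C0 * |z - z'|) →
    (∀ r, r0 < r → r ≤ r1 → ∀ z,
      |(f (r - 1) (z + hh n r) + f (r - 1) (z - hh n r)) / 2 - f r z| ≤ C0 * hh n r ^ 3) →
    (∀ t, Meas S ρ t (U t)) →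
    (∀ t G, U t G ⊆ if b then SS S ρ t G else NN S ρ t G) →
    Pr (fun G => ∃ t ≤ n, ε * uu b n < |∑ j ∈ range t, inc S ρ G r0 r1 f U j|) ≤ ε

/-- for most vertices the removed planted vertices do not matter -/
def S_Few : Prop :=
  ∀ V0 ε : ℝ, 1 ≤ V0 → 0 < ε → Whp (fun n S ρ G => ∀ t, (n : ℝ) / V0 ≤ (rr S ρ t G : ℝ) →
    (((NN S ρ t G).filter
      (fun a => ε * √(n : ℝ) < |Xs S ρ t G a - Xt S ρ t G a|)).card : ℝ) ≤ ε * n)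

/-! ### E. Gaussian analysis -/

def S_Gauss : Prop :=
  (∀ x, HasDerivAt Ph (gd x) x) ∧ (∀ x, 0 < gd x ∧ gd x ≤ 2 / 5) ∧ (∀ x, Ph (-x) = 1 - Ph x) ∧
  Monotone Ph ∧ (∀ x, 0 < Ph x ∧ Ph x < 1) ∧
  Filter.Tendsto Ph Filter.atTop (nhds 1) ∧ Filter.Tendsto Ph Filter.atBot (nhds 0) ∧
  MeasureTheory.Integrable gd ∧ ∫ x, gd x = 1 ∧
  MeasureTheory.Integrable (fun x => |x| * gd x) ∧ ∫ x, |x| * gd x ≤ 1

/-- one step of the discrete heat equation for the Gaussian distribution function -/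
def S_GStep : Prop :=
  ∀ σ : ℝ, 0 < σ → ∃ C : ℝ, 0 < C ∧
    (∀ v, σ ^ 2 ≤ v → ∀ z, HasDerivAt (fun z => Ph (z / √v)) (gd (z / √v) / √v) z) ∧
    (∀ v, σ ^ 2 ≤ v → ∀ z, |gd (z / √v) / √v| ≤ C) ∧
    (∀ v, σ ^ 2 ≤ v → ∀ z z', |gd (z / √v) / √v - gd (z' / √v) / √v| ≤ C * |z - z'|) ∧
    (∀ v h κ z : ℝ, σ ^ 2 ≤ v → 0 ≤ h → h ≤ 1 → 0 ≤ κ → κ ≤ 1 →
      |(Ph ((z + h) / √v) + Ph ((z - h) / √v)) / 2 - Ph (z / √(v + κ))| ≤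
        C * (h ^ 3 + κ ^ 2 + |κ - h ^ 2|))

def S_HeatC : Prop :=
  ∀ (F : ℝ → ℝ) (L : ℝ), Antitone F → (∀ y, 0 ≤ F y ∧ F y ≤ 1) →
    (∀ x y, |F x - F y| ≤ L * |x - y|) →
    (∀ θ, Antitone (heat F θ)) ∧ (∀ θ y, 0 ≤ heat F θ y ∧ heat F θ y ≤ 1) ∧
    (∀ y, heat F 0 y = F y) ∧
    (∀ θ θ' y y', 0 ≤ θ → 0 ≤ θ' →
      |heat F θ y - heat F θ' y'| ≤ L * (|y - y'| + |√θ - √θ'|)) ∧
    (∀ B θ θ' y y', 0 ≤ θ → 0 ≤ θ' →
      |heat (refl B F) θ y - heat (refl B F) θ' y'| ≤ L * (|y - y'| + |√θ - √θ'|)) ∧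
    (∀ B θ θ', 0 ≤ θ → θ ≤ θ' → heat (refl B F) θ' B ≤ heat (refl B F) θ B) ∧
    (∀ B θ y, 0 ≤ heat (refl B F) θ y ∧ heat (refl B F) θ y ≤ 1)

/-- upper step-function approximation -/
def S_NetUp : Prop :=
  ∀ F : ℝ → ℝ, Nice F → ∀ y s ε : ℝ, 0 < s → 0 < ε → ∃ (M : ℕ) (c p : ℕ → ℝ) (c0 : ℝ),
    (∀ i < M, 0 ≤ c i) ∧ 0 ≤ c0 ∧ c0 + ∑ i ∈ range M, c i ≤ 2 ∧
    (∀ z, Ph ((z - y) / s) ≤ c0 + ∑ i ∈ range M, (if p i ≤ z then c i else 0)) ∧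
    c0 + ∑ i ∈ range M, c i * F (p i) ≤ heat F (s ^ 2) y + ε

/-- lower step-function approximation -/
def S_NetLow : Prop :=
  ∀ g : ℝ → ℝ, Nice g → ∀ B y s ε : ℝ, B ≤ y → 0 < s → 0 < ε → ∃ (M : ℕ) (c p : ℕ → ℝ),
    (∀ i < M, 0 ≤ c i ∧ B ≤ p i) ∧ ∑ i ∈ range M, c i ≤ 2 ∧
    (∀ z, B ≤ z → ∑ i ∈ range M, (if p i ≤ z then c i else 0) ≤
      Ph ((z - y) / s) - Ph ((2 * B - z - y) / s)) ∧
    heat (refl B g) (s ^ 2) y - ε ≤ ∑ i ∈ range M, c i * g (p i)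

/-! ### F. Macroscopic steps -/

/-- propagation of the non-planted tail bound -/
def S_TStep : Prop :=
  ∀ (v0 : ℝ) (F : ℝ → ℝ), 1 ≤ v0 → Nice F → AN v0 F → ∀ u u' y E : ℝ, v0 ≤ u → u ≤ u' →
    (∀ x, u ≤ x → x ≤ u' → heat F (x - v0) y ≤ E) → ∀ ε : ℝ, 0 < ε →
    Whp (fun n S ρ G => ∀ t, rv n u' ≤ rr S ρ t G → rr S ρ t G ≤ rv n u →
      (((NN S ρ t G).filter (fun a => y ≤ zz S ρ t G a)).card : ℝ) ≤ (E + ε) * n)

/-- propagation of the planted tail bound -/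
def S_PStep : Prop :=
  ∀ (v : ℝ) (g : ℝ → ℝ), 1 ≤ v → Nice g → AS v g → ∀ (B δ : ℝ) (m : ℕ) (u P : ℕ → ℝ),
    0 < δ → u 0 = v → (∀ q < m, u q < u (q + 1)) →
    (∀ q < m, P (q + 1) ≤ heat (refl B g) (u (q + 1) - v) B) →
    (∀ q < m, Whp (fun n S ρ G => ∀ t, rv n (u (q + 1)) ≤ rr S ρ t G → rr S ρ t G ≤ rv n (u q) →
      (((NN S ρ t G).filter (fun a => B + P (q + 1) * u q - δ ≤ zz S ρ t G a)).card : ℝ) ≤
        (1 / u (q + 1) - δ) * n)) →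
    AS (u m) (fun y => heat (refl B g) (u m - v) (max y B))

/-- initial distribution -/
def S_Init : Prop := AN 1 (fun y => Ph (-y)) ∧ AS 1 (fun y => Ph (-y))

/-- the numerical conditions for one block -/
def BlockOK (v v' : ℝ) (F F' g g' : ℝ → ℝ) : Prop :=
  v < v' ∧ Nice F' ∧ Nice g' ∧ (∀ y, min (1 / v') (heat F (v' - v) y) ≤ F' y) ∧
  ∃ (B δ : ℝ) (m : ℕ) (u P : ℕ → ℝ), 0 < δ ∧ u 0 = v ∧ u m = v' ∧ (∀ q < m, u q < u (q + 1)) ∧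
    (∀ q < m, P (q + 1) ≤ heat (refl B g) (u (q + 1) - v) B) ∧
    (∀ q < m, ∀ x, u q ≤ x → x ≤ u (q + 1) →
      heat F (x - v) (B + P (q + 1) * u q - δ) ≤ 1 / u (q + 1) - 2 * δ) ∧
    (∀ y, g' y ≤ heat (refl B g) (v' - v) (max y B))

def S_Block : Prop :=
  ∀ (v v' : ℝ) (F F' g g' : ℝ → ℝ), 1 ≤ v → Nice F → Nice g → AN v F → AS v g →
    BlockOK v v' F F' g g' → AN v' F' ∧ AS v' g'

/-- the numerical certificate -/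
def S_Cert : Prop :=
  ∃ (N : ℕ) (v : ℕ → ℝ) (F g : ℕ → ℝ → ℝ), v 0 = 1 ∧ v N = 256 ∧ (∀ j ≤ N, 1 ≤ v j) ∧
    Nice (F 0) ∧ Nice (g 0) ∧ (∀ y, Ph (-y) ≤ F 0 y) ∧ (∀ y, g 0 y ≤ Ph (-y)) ∧
    (∀ j < N, BlockOK (v j) (v (j + 1)) (F j) (F (j + 1)) (g j) (g (j + 1))) ∧
    11 / 20 ≤ g N (-32)

/-! ### G. The end of the process -/

/-- expected number of removals of planted vertices deep below their start -/
def S_P2 : Prop :=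
  ∀ (n : ℕ) (S : Finset (Fin n)) (ρ : Rule n) (r1 r2 : ℕ) (K1 y0 : ℝ), IsRule ρ → 2 ≤ n →
    2 ≤ r2 → r2 ≤ r1 → r1 ≤ n - S.card → 0 ≤ K1 →
    Ex (fun G => (((range n).filter (fun t => ww S ρ t G ∈ S ∧ r2 ≤ rr S ρ t G ∧
      rr S ρ t G ≤ r1 ∧
      √(n : ℝ) / (rr S ρ t G : ℝ) * Xn S ρ t G (ww S ρ t G) ≤ -K1 * n / ((rr S ρ t G : ℝ) - 1) ∧
      (∀ j, rr S ρ j G = r1 → -y0 ≤ √(n : ℝ) / r1 * Xn S ρ j G (ww S ρ t G)))).card : ℝ)) ≤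
    S.card * Real.exp (2 * K1 * y0 - 2 * K1 ^ 2 * n / ((r1 : ℝ) - 1))

/-- sharp bound for the number of edges inside vertex sets -/
def S_SE : Prop :=
  ∀ c ε : ℝ, 0 < c → 0 < ε → ∃ n0 : ℕ, ∀ n ≥ n0,
    Pr (fun G : SimpleGraph (Fin n) => ∃ N : Finset (Fin n), c * √(n : ℝ) ≤ N.card ∧
      2 * (N.card : ℝ) * √((N.card : ℝ) * (1 + Real.log (n / N.card) + ε)) <
        ∑ a ∈ N, ∑ b ∈ N, ee G a b) ≤ ε

/-- degrees into the planted set -/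
def S_HE : Prop :=
  ∀ ε : ℝ, 0 < ε → ∃ n0 : ℕ, ∀ n ≥ n0, ∀ S : Finset (Fin n), S.card = Nat.sqrt n →
    Pr (fun G : SimpleGraph (Fin n) => ∃ w, w ∉ S ∧
      ε * √(n : ℝ) < |∑ b ∈ S, ee G w b|) ≤ ε

/-- conclusion -/
def S_End : Prop :=
  ∀ g : ℝ → ℝ, AS 256 g → 11 / 20 ≤ g (-32) → ∃ n0 : ℕ, ∀ n ≥ n0, ∀ (S : Finset (Fin n))
    (ρ : Rule n), S.card = Nat.sqrt n → IsRule ρ →
    1 / 2 ≤ Pr (fun G => Succ ρ (plant G S) S)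

end

end W841.PK
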