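import Pool.Agent.W841.PK.Api

/-! Finer statements, used to split the larger lemmas. -/

set_option autoImplicit false

namespace W841.PK

open Finset
open scoped Classical symmDiff

noncomputable section

variable {n : ℕ} (S : Finset (Fin n)) (ρ : Rule n) (t : ℕ) (G : SimpleGraph (Fin n))

/-! ### The pieces of `S_DY` -/

/-- second vertices with a typical symmetric difference -/
def good2 : Finset (Fin n) := ((NN S ρ t G).erase (ww S ρ t G)).filter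
  (fun w2 => |qq S ρ t G w2| ≤ ((RR S ρ t G).card : ℝ) / 4)

/-- the other second vertices -/
def bad2 : Finset (Fin n) := ((NN S ρ t G).erase (ww S ρ t G)).filter
  (fun w2 => ¬ |qq S ρ t G w2| ≤ ((RR S ρ t G).card : ℝ) / 4)

def T2g (g : Fin n → ℝ) : ℝ :=
  ∑ w2 ∈ good2 S ρ t G, qh S ρ t G w2 / 2 * ∑ a ∈ ((RR S ρ t G).erase (ww S ρ t G)).erase w2, g a

def T3g (g : Fin n → ℝ) : ℝ :=
  ∑ w2 ∈ good2 S ρ t G, qh S ρ t G w2 / 2 *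
    ∑ a ∈ ((RR S ρ t G).erase (ww S ρ t G)).erase w2, g a * ee G a (ww S ρ t G) * ee G a w2

def T4g (g : Fin n → ℝ) : ℝ :=
  ∑ w2 ∈ bad2 S ρ t G,
    ∑ a ∈ ((RR S ρ t G).erase (ww S ρ t G)).erase w2, g a * (ee G a (ww S ρ t G) - ee G a w2) / 2

/-- exact identity -/
def S_DYid : Prop :=
  ∀ (n : ℕ) (S : Finset (Fin n)) (ρ : Rule n) (t : ℕ) (G : SimpleGraph (Fin n)) (g : Fin n → ℝ),
    NP S ρ t G → 1 ≤ rr S ρ t G →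
    ∑ w2 ∈ good2 S ρ t G, Dd S ρ t G g w2 - (rr S ρ t G : ℝ) / 2 * Yv S ρ t G g =
      - T4g S ρ t G g + T3g S ρ t G g
      - (T2g S ρ t G g - (Xt S ρ t G (ww S ρ t G) - Xb S ρ t G) / 2 *
          ∑ a ∈ (RR S ρ t G).erase (ww S ρ t G), g a)
      - (∑ a ∈ (NN S ρ t G).erase (ww S ρ t G), g a * ee G a (ww S ρ t G)) / 2
      + (∑ a ∈ (RR S ρ t G).erase (ww S ρ t G), g a * (Xs S ρ t G a - Xn S ρ t G a)) / 2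

/-- the size of the allowed errors (before division by `rr`) -/
def Bd (b : Bool) (γ : ℝ) : ℝ :=
  γ * uu b n * (n : ℝ) ^ ((7 : ℝ) / 16) * (1 + |Xt S ρ t G (ww S ρ t G)| / √(n : ℝ))

/-- deterministic bounds used for all the pieces -/
def S_DYcnt : Prop :=
  ∀ V0 C : ℝ, 1 ≤ V0 → 1 ≤ C → ∃ K : ℝ, ∃ n0 : ℕ, ∀ n ≥ n0, ∀ (S : Finset (Fin n)) (ρ : Rule n)
    (t : ℕ) (G : SimpleGraph (Fin n)), S.card = Nat.sqrt n → IsRule ρ → PRev C G →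
    Act S ρ t G V0 →
    ((bad2 S ρ t G).card : ℝ) ≤ K * Real.log n ∧
    (∀ w2 ∈ good2 S ρ t G, ((RR S ρ t G).card : ℝ) / 4 ≤ Dl S ρ t G w2) ∧
    (∀ w2 ∈ (NN S ρ t G).erase (ww S ρ t G),
      2 * Dl S ρ t G w2 = ((RR S ρ t G).card : ℝ) - 2 - qq S ρ t G w2) ∧
    ∑ w2 ∈ (NN S ρ t G).erase (ww S ρ t G), |qq S ρ t G w2| ≤ K * n * √(n : ℝ) * √(Real.log n) ∧
    ∑ w2 ∈ (NN S ρ t G).erase (ww S ρ t G), qq S ρ t G w2 ^ 2 ≤ K * (n : ℝ) ^ 2 * Real.log n ^ 2 ∧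
    ∑ a ∈ NN S ρ t G, |Xt S ρ t G a| ≤ K * n * √(n : ℝ) * √(Real.log n) ∧
    ∑ a ∈ NN S ρ t G, Xt S ρ t G a ^ 2 ≤ K * (n : ℝ) ^ 2 * Real.log n ^ 2 ∧
    |Xb S ρ t G| ≤ K * √(n : ℝ) * √(Real.log n)

def S_T2 : Prop :=
  ∀ V0 C : ℝ, 1 ≤ V0 → 1 ≤ C → ∃ K : ℝ, ∃ n0 : ℕ, ∀ n ≥ n0, ∀ (S : Finset (Fin n)) (ρ : Rule n)
    (t : ℕ) (G : SimpleGraph (Fin n)), S.card = Nat.sqrt n → IsRule ρ → PRev C G →
    Act S ρ t G V0 → ∀ (b : Bool) (γ : ℝ) (g : Fin n → ℝ), 0 ≤ γ → (∀ a, |g a| ≤ γ) →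
    (∀ a, (if b then a ∉ S else a ∈ S) → g a = 0) →
    |T2g S ρ t G g - (Xt S ρ t G (ww S ρ t G) - Xb S ρ t G) / 2 *
      ∑ a ∈ (RR S ρ t G).erase (ww S ρ t G), g a| ≤ K * Bd S ρ t G b γ

def S_T3 : Prop :=
  ∀ V0 C : ℝ, 1 ≤ V0 → 1 ≤ C → ∃ K : ℝ, ∃ n0 : ℕ, ∀ n ≥ n0, ∀ (S : Finset (Fin n)) (ρ : Rule n)
    (t : ℕ) (G : SimpleGraph (Fin n)), S.card = Nat.sqrt n → IsRule ρ → PRev C G →
    Act S ρ t G V0 → ∀ (b : Bool) (γ : ℝ) (g : Fin n → ℝ), 0 ≤ γ → (∀ a, |g a| ≤ γ) →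
    (∀ a, (if b then a ∉ S else a ∈ S) → g a = 0) →
    |T3g S ρ t G g| ≤ K * Bd S ρ t G b γ

def S_T4 : Prop :=
  ∀ V0 C : ℝ, 1 ≤ V0 → 1 ≤ C → ∃ K : ℝ, ∃ n0 : ℕ, ∀ n ≥ n0, ∀ (S : Finset (Fin n)) (ρ : Rule n)
    (t : ℕ) (G : SimpleGraph (Fin n)), S.card = Nat.sqrt n → IsRule ρ → PRev C G →
    Act S ρ t G V0 → ∀ (b : Bool) (γ : ℝ) (g : Fin n → ℝ), 0 ≤ γ → (∀ a, |g a| ≤ γ) →
    (∀ a, (if b then a ∉ S else a ∈ S) → g a = 0) →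
    |T4g S ρ t G g| ≤ K * Bd S ρ t G b γ ∧
    |∑ a ∈ (NN S ρ t G).erase (ww S ρ t G), g a * ee G a (ww S ρ t G)| ≤ K * Bd S ρ t G b γ ∧
    |∑ a ∈ (RR S ρ t G).erase (ww S ρ t G), g a * (Xs S ρ t G a - Xn S ρ t G a)| ≤
      K * Bd S ρ t G b γ

/-! ### Drift and second moment of one step -/

/-- error terms -/
def e1V (V0 K C γ : ℝ) (b : Bool) : ℝ :=
  (if Act S ρ t G V0 then K * γ * uu b n * (n : ℝ) ^ (-(9 / 16) : ℝ) *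
      (1 + |Xt S ρ t G (ww S ρ t G)| / √(n : ℝ)) else 0) +
  (if PRev C G then 0 else K * γ * (n : ℝ) ^ 2)

def e2V (V0 K C γ : ℝ) (b : Bool) : ℝ :=
  (if Act S ρ t G V0 then K * γ ^ 2 * uu b n +
      K * γ ^ 2 * uu b n ^ 2 * (n : ℝ) ^ (-(9 / 16) : ℝ) *
      (1 + |Xt S ρ t G (ww S ρ t G)| / √(n : ℝ)) else 0) +
  (if PRev C G then 0 else K * γ ^ 2 * (n : ℝ) ^ 4)

def S_Drift : Prop :=
  ∀ V0 C : ℝ, 1 ≤ V0 → 1 ≤ C → ∃ K : ℝ, 0 ≤ K ∧ ∃ n0 : ℕ, ∀ n ≥ n0, ∀ (S : Finset (Fin n))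
    (ρ : Rule n) (t : ℕ), S.card = Nat.sqrt n → IsRule ρ → ∀ (b : Bool) (γ : ℝ)
    (g : SimpleGraph (Fin n) → Fin n → ℝ), 0 ≤ γ →
    (∀ a, Meas S ρ t (fun G => g G a)) → (∀ G a, |g G a| ≤ γ) →
    (∀ G a, (if b then a ∉ S else a ∈ S) → g G a = 0) →
    Meas S ρ (t + 1) (fun G => if Act S ρ t G V0 then Yv S ρ t G (g G) else 0) ∧
    (∀ φ : SimpleGraph (Fin n) → ℝ, Meas S ρ t φ →
      |Ex (fun G => φ G * (if Act S ρ t G V0 then Yv S ρ t G (g G) else 0))| ≤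
        Ex (fun G => |φ G| * e1V S ρ t G V0 K C γ b)) ∧
    Ex (fun G => (if Act S ρ t G V0 then Yv S ρ t G (g G) else 0) ^ 2) ≤
      Ex (fun G => e2V S ρ t G V0 K C γ b)

/-! ### The pieces of `S_FL` -/

/-- the weights of the main term -/
def gw (r0 r1 : ℕ) (f : ℕ → ℝ → ℝ) (U : ℕ → SimpleGraph (Fin n) → Finset (Fin n)) (j : ℕ)
    (a : Fin n) : ℝ :=
  if NP S ρ j G ∧ r0 < rr S ρ j G ∧ rr S ρ j G ≤ r1 ∧ a ∈ U j G then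
    (f (rr S ρ j G - 1) (zz S ρ j G a + hh n (rr S ρ j G)) -
      f (rr S ρ j G - 1) (zz S ρ j G a - hh n (rr S ρ j G))) / 2
  else 0

/-- the remainders add up to little -/
def S_FLrem : Prop :=
  ∀ V0 C0 C ε : ℝ, 1 ≤ V0 → 0 < C0 → 1 ≤ C → 0 < ε → ∃ n0 : ℕ, ∀ n ≥ n0, ∀ (S : Finset (Fin n))
    (ρ : Rule n) (G : SimpleGraph (Fin n)), S.card = Nat.sqrt n → IsRule ρ → PRev C G →
    ∀ (b : Bool) (r0 r1 : ℕ)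
    (f f' : ℕ → ℝ → ℝ) (U : ℕ → SimpleGraph (Fin n) → Finset (Fin n)),
    (n : ℝ) / V0 ≤ r0 →
    (∀ r, r0 ≤ r → r ≤ r1 → ∀ z, HasDerivAt (f r) (f' r z) z) →
    (∀ r, r0 ≤ r → r ≤ r1 → ∀ z, |f' r z| ≤ C0) →
    (∀ r, r0 ≤ r → r ≤ r1 → ∀ z z', |f' r z - f' r z'| ≤ C0 * |z - z'|) →
    (∀ r, r0 < r → r ≤ r1 → ∀ z,
      |(f (r - 1) (z + hh n r) + f (r - 1) (z - hh n r)) / 2 - f r z| ≤ C0 * hh n r ^ 3) →
    (∀ t G, U t G ⊆ if b then SS S ρ t G else NN S ρ t G) →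
    ∀ t ≤ n, |∑ j ∈ range t, (inc S ρ G r0 r1 f U j +
      if Act S ρ j G V0 then Yv S ρ j G (gw S ρ G r0 r1 f U j) else 0)| ≤ ε * uu b n

/-! ### Flows of Gaussian test functions -/

def S_StartN : Prop :=
  ∀ (v : ℝ) (F : ℝ → ℝ), 1 ≤ v → Nice F → AN v F → ∀ y s ε : ℝ, 0 < s → 0 < ε →
    Whp (fun n S ρ G => ∀ t, rr S ρ t G = rv n v →
      ∑ a ∈ NN S ρ t G, Ph ((zz S ρ t G a - y) / s) ≤ (heat F (s ^ 2) y + ε) * n)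

def S_StartS : Prop :=
  ∀ (v : ℝ) (g : ℝ → ℝ), 1 ≤ v → Nice g → AS v g → ∀ B y s ε : ℝ, B ≤ y → 0 < s → 0 < ε →
    Whp (fun n S ρ G => ∀ t, rr S ρ t G = rv n v →
      (heat (refl B g) (s ^ 2) y - ε) * √(n : ℝ) ≤
      ∑ a ∈ (SS S ρ t G).filter (fun a => B ≤ zz S ρ t G a),
        (Ph ((zz S ρ t G a - y) / s) - Ph ((2 * B - zz S ρ t G a - y) / s)))

/-- standard deviation of the test function aimed at `r0` when `r` vertices are left -/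
def sdv (n : ℕ) (σ : ℝ) (r0 r : ℕ) : ℝ := √(σ ^ 2 + ((n : ℝ) / r0 - (n : ℝ) / r))

def S_FlowN : Prop :=
  ∀ (v : ℝ) (F : ℝ → ℝ), 1 ≤ v → Nice F → AN v F → ∀ u y σ ε : ℝ, v ≤ u → 0 < σ → 0 < ε →
    Whp (fun n S ρ G => ∀ t, rv n u ≤ rr S ρ t G → rr S ρ t G ≤ rv n v →
      ∑ a ∈ NN S ρ t G, Ph ((zz S ρ t G a - y) / sdv n σ (rv n u) (rr S ρ t G)) ≤
        (heat F (σ ^ 2 + (u - v)) y + ε) * n)

/-- planted vertices which stayed above `B` since `r1` non-planted vertices were left -/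
def Trk (B : ℝ) (r1 : ℕ) : Finset (Fin n) :=
  (SS S ρ t G).filter (fun a => ∀ i ≤ t, rr S ρ i G ≤ r1 → B ≤ zz S ρ i G a)

def S_FlowS : Prop :=
  ∀ (v : ℝ) (g : ℝ → ℝ), 1 ≤ v → Nice g → AS v g → ∀ u B y σ ε : ℝ, v ≤ u → B ≤ y → 0 < σ →
    0 < ε →
    Whp (fun n S ρ G => ∀ t, rv n u ≤ rr S ρ t G → rr S ρ t G ≤ rv n v →
      (∀ i < t, rr S ρ i G ≤ rv n v → ww S ρ i G ∉ Trk S ρ i G B (rv n v)) →
      (heat (refl B g) (σ ^ 2 + (u - v)) y - ε) * √(n : ℝ) ≤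
      ∑ a ∈ Trk S ρ t G B (rv n v),
        (Ph ((zz S ρ t G a - y) / sdv n σ (rv n u) (rr S ρ t G)) -
          Ph ((2 * B - zz S ρ t G a - y) / sdv n σ (rv n u) (rr S ρ t G))))

/-! ### Initial counts -/

def S_Cnt : Prop :=
  ∀ y ε : ℝ, 0 < ε → Whp (fun n S ρ G =>
    |((univ.filter (fun a => a ∉ S ∧
        y ≤ √(n : ℝ) / ((n - Nat.sqrt n : ℕ) : ℝ) * Xs S ρ 0 G a)).card : ℝ) - Ph (-y) * n| ≤
      ε * n ∧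
    |((univ.filter (fun a => a ∈ S ∧
        y ≤ √(n : ℝ) / ((n - Nat.sqrt n : ℕ) : ℝ) * Xs S ρ 0 G a)).card : ℝ) -
      Ph (-y) * √(n : ℝ)| ≤ ε * √(n : ℝ))

/-! ### The end of the process -/

/-- the event of `S_SE` with fixed constants -/
def SEok (G : SimpleGraph (Fin n)) : Prop :=
  ∀ N : Finset (Fin n), (1 / 200 : ℝ) * √(n : ℝ) ≤ N.card →
    ∑ a ∈ N, ∑ b ∈ N, ee G a b ≤
      2 * (N.card : ℝ) * √((N.card : ℝ) * (1 + Real.log (n / N.card) + 1 / 100))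

/-- the event of `S_HE` with a fixed constant -/
def HEok (S : Finset (Fin n)) (G : SimpleGraph (Fin n)) : Prop :=
  ∀ w, w ∉ S → |∑ b ∈ S, ee G w b| ≤ (1 / 200 : ℝ) * √(n : ℝ)

/-- a planted vertex is removed late only if its degree is very small -/
def S_KillThr : Prop :=
  ∀ C : ℝ, 1 ≤ C → ∃ n0 : ℕ, ∀ n ≥ n0, ∀ (S : Finset (Fin n)) (ρ : Rule n) (t : ℕ)
    (G : SimpleGraph (Fin n)), S.card = Nat.sqrt n → IsRule ρ → PRev C G → SEok G →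
    t < n → ww S ρ t G ∈ S → (1 / 100 : ℝ) * √(n : ℝ) ≤ (rr S ρ t G : ℝ) →
    (rr S ρ t G : ℝ) ≤ (n : ℝ) / 256 → (53 / 100 : ℝ) * √(n : ℝ) ≤ (ss S ρ t G : ℝ) →
    √(n : ℝ) / (rr S ρ t G : ℝ) * Xn S ρ t G (ww S ρ t G) ≤
      -(1 / 5) * n / ((rr S ρ t G : ℝ) - 1)

/-- no planted vertex is removed at the very end -/
def S_EndKill : Prop :=
  ∃ n0 : ℕ, ∀ n ≥ n0, ∀ (S : Finset (Fin n)) (ρ : Rule n) (t : ℕ)
    (G : SimpleGraph (Fin n)), S.card = Nat.sqrt n → IsRule ρ → HEok S G →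
    t < n → ww S ρ t G ∈ S → 1 ≤ rr S ρ t G → (rr S ρ t G : ℝ) ≤ (1 / 100 : ℝ) * √(n : ℝ) →
    (ss S ρ t G : ℝ) < (53 / 100 : ℝ) * √(n : ℝ)

end

end W841.PK
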